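import Mathlib

/-!
# CF3.AbsH: the Herbrand inequality for a finitely generated group with an automorphism of order 3
-/

namespace CF3

theorem herbrandM {M : Type*} [CommGroup M] [Group.FG M] [Infinite M] (s : M →* M)
    (hs : ∀ x, s (s (s x)) = x) (Mf : Subgroup M) (hMf : ∀ x, x ∈ Mf ↔ s x = x)
    (hfix : Finite Mf) : Nat.card Mf < (s / MonoidHom.id M).range.index := by
  classical
  set γ : M →* M := s / MonoidHom.id M with hγdef
  have hγ : ∀ x, γ x = s x / x := fun x => rfl
  let N : M →* M := MonoidHom.id M * s * (s.comp s)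
  have hN : ∀ x, N x = x * s x * s (s x) := fun x => rfl
  let T : Subgroup M := CommGroup.torsion M
  have hT : ∀ x, x ∈ T ↔ IsOfFinOrder x := fun x => Iff.rfl
  have hker : γ.ker = Mf := by
    ext x
    rw [MonoidHom.mem_ker, hγ, div_eq_one, hMf]
  have hMfT : Mf ≤ T := by
    intro x hx
    rw [hT]
    have h := isOfFinOrder_of_finite (⟨x, hx⟩ : Mf)
    exact MonoidHom.isOfFinOrder Mf.subtype h
  -- T is finite
  have hTfin : Finite T := by
    have hfgT : Group.FG T := by
      have h1 : Module.Finite ℤ (Additive M) := Module.Finite.iff_addGroup_fg.2 inferInstance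
      have h2 : Group.FG T ↔ AddGroup.FG (Additive T) := GroupFG.iff_add_fg
      rw [h2, ← Module.Finite.iff_addGroup_fg]
      let φ : Additive T →ₗ[ℤ] Additive M := (MonoidHom.toAdditive T.subtype).toIntLinearMap
      exact Module.Finite.of_injective φ (fun a b h => Subtype.ext h)
    apply CommGroup.finite_of_fg_isMulTorsion
    intro x
    obtain ⟨n, hn, hn'⟩ := isOfFinOrder_iff_pow_eq_one.1 ((hT _).1 x.2)
    exact isOfFinOrder_iff_pow_eq_one.2 ⟨n, hn, Subtype.ext hn'⟩
  have hNT : ∀ x, N x ∈ Mf := by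
    intro x
    rw [hMf, hN, map_mul, map_mul, hs, mul_comm (s x * s (s x)) x, mul_assoc]
  -- γ² x = N x (s x)^(-3)
  have hγγ : ∀ x, γ (γ x) * (s x) ^ 3 = N x := by
    intro x
    rw [hγ, hγ, map_div, hN]
    simp only [div_eq_mul_inv, mul_inv_rev, inv_inv, pow_succ, pow_zero, one_mul]
    calc s (s x) * (s x)⁻¹ * (x * (s x)⁻¹) * (s x * s x * s x)
        = (s (s x) * x) * ((s x)⁻¹ * s x) * ((s x)⁻¹ * s x) * s x := by
          simp only [mul_comm, mul_left_comm, mul_assoc]
      _ = x * s x * s (s x) := by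
          rw [inv_mul_cancel, mul_one, mul_one, mul_comm (s (s x)) x]
          simp only [mul_comm, mul_left_comm, mul_assoc]
  -- γ.range ⊓ T = T.map γ
  have hcap : γ.range ⊓ T = T.map γ := by
    ext x
    constructor
    · rintro ⟨⟨y, rfl⟩, hy⟩
      refine ⟨y, ?_, rfl⟩
      obtain ⟨n, hn, hn'⟩ := isOfFinOrder_iff_pow_eq_one.1 ((hT _).1 hy)
      have h1 : y ^ n ∈ γ.ker := by
        rw [MonoidHom.mem_ker, map_pow, hn']
      rw [hker] at h1
      have h2 := (hT _).1 (hMfT h1)
      show IsOfFinOrder y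
      exact (isOfFinOrder_pow.1 h2).resolve_right hn.ne'
    · rintro ⟨y, hy, rfl⟩
      refine ⟨⟨y, rfl⟩, ?_⟩
      exact MonoidHom.isOfFinOrder γ hy
  have hcount : γ.range.relIndex T = Nat.card Mf := by
    have h1 : γ.range.relIndex T = (T.map γ).relIndex T := by
      rw [← hcap, Subgroup.inf_relIndex_right]
    have h2 : Nat.card (T.map γ) * (T.map γ).relIndex T = Nat.card T := by
      have hle : T.map γ ≤ T := by rw [← hcap]; exact inf_le_right
      rw [← Subgroup.relIndex_bot_left, ← Subgroup.relIndex_bot_left,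
        Subgroup.relIndex_mul_relIndex _ _ _ bot_le hle]
    have h3 : Nat.card Mf * Nat.card (T.map γ) = Nat.card T := by
      rw [← Subgroup.relIndex_ker, hker, ← Subgroup.relIndex_bot_left,
        Subgroup.relIndex_mul_relIndex _ _ _ bot_le hMfT, Subgroup.relIndex_bot_left]
    have h4 : 0 < Nat.card (T.map γ) := by
      rcases Nat.eq_zero_or_pos (Nat.card (T.map γ)) with h | h
      · rw [h, zero_mul] at h2
        exact absurd h2.symm (Nat.card_pos (α := T)).ne'
      · exact h
    rw [h1]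
    apply Nat.eq_of_mul_eq_mul_left h4
    rw [h2, ← h3, mul_comm]
  have hidx : γ.range.index = Nat.card Mf * (γ.range ⊔ T).index := by
    rw [← Subgroup.relIndex_mul_index (le_sup_left : γ.range ≤ γ.range ⊔ T), sup_comm,
      Subgroup.relIndex_sup_right, hcount]
  -- the index of γ.range ⊔ T
  have hcube : ∀ m : M, m ^ 3 ∈ γ.range ⊔ T := by
    intro m
    have h1 := hγγ (s (s m))
    rw [hs] at h1
    have h2 : m ^ 3 = (γ (γ (s (s m))))⁻¹ * N (s (s m)) := by
      rw [← h1, inv_mul_cancel_left]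
    rw [h2]
    exact (γ.range ⊔ T).mul_mem ((γ.range ⊔ T).inv_mem (Subgroup.mem_sup_left ⟨_, rfl⟩))
      (Subgroup.mem_sup_right (hMfT (hNT _)))
  have hne0 : (γ.range ⊔ T).index ≠ 0 := by
    have hfinq : Finite (M ⧸ (γ.range ⊔ T)) := by
      apply CommGroup.finite_of_fg_isMulTorsion
      intro x
      obtain ⟨m, rfl⟩ := QuotientGroup.mk_surjective x
      rw [isOfFinOrder_iff_pow_eq_one]
      refine ⟨3, by norm_num, ?_⟩
      rw [← QuotientGroup.mk_pow, QuotientGroup.eq_one_iff]
      exact hcube m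
    rw [Subgroup.index_eq_card]
    exact Nat.card_pos.ne'
  have hne1 : (γ.range ⊔ T).index ≠ 1 := by
    intro h
    rw [Subgroup.index_eq_one] at h
    -- every element is γ x * t
    have h1 : ∀ m : M, ∃ x, ∃ t ∈ T, m = γ x * t := by
      intro m
      have : m ∈ γ.range ⊔ T := by rw [h]; trivial
      obtain ⟨_, ⟨x, rfl⟩, t, ht, e⟩ := Subgroup.mem_sup.1 this
      exact ⟨x, t, ht, e.symm⟩
    have h2 : ∀ m : M, ∃ x, ∃ t ∈ T, m = x ^ 3 * t := by
      intro m
      obtain ⟨x, t, ht, rfl⟩ := h1 m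
      obtain ⟨y, t', ht', rfl⟩ := h1 x
      refine ⟨(s y)⁻¹, N y * γ t' * t, T.mul_mem (T.mul_mem (hMfT (hNT y)) ?_) ht, ?_⟩
      · exact MonoidHom.isOfFinOrder γ ht'
      · have h3 := hγγ y
        rw [map_mul]
        have h4 : γ (γ y) = (s y)⁻¹ ^ 3 * N y := by
          rw [← h3, inv_pow, mul_comm, mul_assoc, mul_inv_cancel, mul_one]
        rw [h4]
        simp only [mul_assoc]
    -- Nakayama
    let Q := M ⧸ T
    have hQ : Module.Finite ℤ (Additive Q) := by
      have : Group.FG Q := inferInstance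
      have h5 : AddGroup.FG (Additive Q) := inferInstance
      exact Module.Finite.iff_addGroup_fg.2 h5
    obtain ⟨r, hr, hr'⟩ := Submodule.exists_sub_one_mem_and_smul_eq_zero_of_fg_of_le_smul
      (Ideal.span {(3 : ℤ)}) (⊤ : Submodule ℤ (Additive Q)) hQ.1 (by
        intro x _
        obtain ⟨m, hm⟩ := QuotientGroup.mk_surjective (x.toMul : Q)
        obtain ⟨y, t, ht, e⟩ := h2 m
        have h6 : x = (3 : ℤ) • (Additive.ofMul (QuotientGroup.mk y : Q)) := by
          have h7 : (x.toMul : Q) = (QuotientGroup.mk y : Q) ^ 3 := by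
            rw [← hm, e, QuotientGroup.mk_mul, QuotientGroup.mk_pow,
              (QuotientGroup.eq_one_iff t).2 ht, mul_one]
          have h8 : x = Additive.ofMul (x.toMul) := rfl
          rw [h8, h7, ofMul_pow]
          norm_cast
        rw [h6]
        exact Submodule.smul_mem_smul (Ideal.mem_span_singleton_self _) trivial)
    have hr0 : r ≠ 0 := by
      rintro rfl
      rw [Ideal.mem_span_singleton] at hr
      omega
    have hall : ∀ m : M, m ∈ T := by
      intro m
      have h7 := hr' (Additive.ofMul (QuotientGroup.mk m : Q)) trivial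
      have h8 : (QuotientGroup.mk m : Q) ^ r = 1 := h7
      rw [← QuotientGroup.mk_zpow, QuotientGroup.eq_one_iff] at h8
      rw [hT]
      have h9 : IsOfFinOrder (m ^ r) := h8
      have h10 : IsOfFinOrder (m ^ r.natAbs) := by
        rcases Int.natAbs_eq r with h | h
        · rw [h, zpow_natCast] at h9
          exact h9
        · rw [h, zpow_neg, zpow_natCast] at h9
          rw [← inv_inv (m ^ r.natAbs)]
          exact h9.inv
      exact (isOfFinOrder_pow.1 h10).resolve_right (by omega)
    have : Finite M := Finite.of_injective (fun m : M => (⟨m, hall m⟩ : T))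
      (fun a b hab => congrArg Subtype.val hab)
    exact not_finite M
  rw [hidx]
  have h1 : 0 < Nat.card Mf := Nat.card_pos
  have h2 : 2 ≤ (γ.range ⊔ T).index := by omega
  nlinarith

theorem herbrand {W : Type*} [CommGroup W] (s : W →* W) (hs : ∀ x, s (s (s x)) = x)
    (U : Subgroup W) (hfg : Group.FG U) (hinf : Infinite U) (hsU : ∀ x ∈ U, s x ∈ U)
    (Uf : Subgroup W) (hUf : ∀ x, x ∈ Uf ↔ x ∈ U ∧ s x = x) (hfix : Finite Uf) :
    Nat.card Uf < (U.map (s / MonoidHom.id W)).relIndex U := by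
  let sU : U →* U := (s.comp U.subtype).codRestrict U (fun x => hsU x.1 x.2)
  have hsU' : ∀ x : U, ((sU x : U) : W) = s x := fun x => rfl
  let Mf : Subgroup U := Uf.subgroupOf U
  have hle : Uf ≤ U := fun x hx => ((hUf x).1 hx).1
  have e : Mf ≃ Uf := (Subgroup.subgroupOfEquivOfLe hle).toEquiv
  have hfM : Finite Mf := Finite.of_equiv _ e.symm
  have h := herbrandM sU (fun x => Subtype.ext (hs x)) Mf (by
    intro x
    rw [Subgroup.mem_subgroupOf, hUf]
    constructor
    · rintro ⟨_, h⟩
      exact Subtype.ext h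
    · intro h
      exact ⟨x.2, congrArg Subtype.val h⟩) hfM
  rw [Nat.card_congr e] at h
  refine lt_of_lt_of_eq h ?_
  show _ = ((U.map (s / MonoidHom.id W)).subgroupOf U).index
  congr 1
  ext x
  rw [Subgroup.mem_subgroupOf]
  constructor
  · rintro ⟨y, rfl⟩
    exact ⟨y, y.2, rfl⟩
  · rintro ⟨y, hy, hyx⟩
    exact ⟨⟨y, hy⟩, Subtype.ext hyx⟩

end CF3
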