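import Mathlib

/-!
# CF3.AbsK: successive approximation (`H^1(W) = 0` for `W = 1 + f^(c+1) A[G] theta`)

`E` a field, `s` an automorphism with `s^3 = 1`, `B` a subring stable under `s`, `f` in `B` fixed by
`s` and in the Jacobson radical of `B`, `theta` a normal basis up to the power `f^c`.
-/

namespace CF3

/-- the setting -/
structure NB {E : Type*} [Field E] (s : E →+* E) (B : Subring E) (f θ : E) (c : ℕ) : Prop where
  s3 : ∀ x, s (s (s x)) = x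
  sB : ∀ x ∈ B, s x ∈ B
  fB : f ∈ B
  f0 : f ≠ 0
  sf : s f = f
  unit : ∀ b ∈ B, 1 + f * b ≠ 0 ∧ (1 + f * b)⁻¹ ∈ B
  θB : θ ∈ B
  gen : ∀ x ∈ B, ∃ a0 a1 a2 : E, (a0 ∈ B ∧ s a0 = a0) ∧ (a1 ∈ B ∧ s a1 = a1) ∧
    (a2 ∈ B ∧ s a2 = a2) ∧ f ^ c * x = a0 * θ + a1 * s θ + a2 * s (s θ)
  ind : ∀ a0 a1 a2 : E, s a0 = a0 → s a1 = a1 → s a2 = a2 →
    a0 * θ + a1 * s θ + a2 * s (s θ) = 0 → a0 = 0 ∧ a1 = 0 ∧ a2 = 0
  three : ∃ j : ℕ, ∃ b : E, b ∈ B ∧ f ^ j = 3 * f * b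

/-- the lattice `f^(c+1+i) (A theta + A s(theta) + A s^2(theta))`, `A` = fixed elements of `B` -/
def Lam {E : Type*} [Field E] (s : E →+* E) (B : Subring E) (f θ : E) (c i : ℕ) : Set E :=
  {x | ∃ a0 a1 a2 : E, (a0 ∈ B ∧ s a0 = a0) ∧ (a1 ∈ B ∧ s a1 = a1) ∧ (a2 ∈ B ∧ s a2 = a2) ∧
    x = f ^ (c + 1 + i) * (a0 * θ + a1 * s θ + a2 * s (s θ))}

variable {E : Type*} [Field E] {s : E →+* E} {B : Subring E} {f θ : E} {c : ℕ}

namespace NB

private lemma lam_zero (i : ℕ) : (0 : E) ∈ Lam s B f θ c i :=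
  ⟨0, 0, 0, ⟨B.zero_mem, map_zero s⟩, ⟨B.zero_mem, map_zero s⟩, ⟨B.zero_mem, map_zero s⟩, by simp⟩

private lemma lam_add {i : ℕ} {x y : E} (hx : x ∈ Lam s B f θ c i) (hy : y ∈ Lam s B f θ c i) :
    x + y ∈ Lam s B f θ c i := by
  obtain ⟨a0, a1, a2, h0, h1, h2, rfl⟩ := hx
  obtain ⟨b0, b1, b2, k0, k1, k2, rfl⟩ := hy
  refine ⟨a0 + b0, a1 + b1, a2 + b2, ⟨B.add_mem h0.1 k0.1, by rw [map_add, h0.2, k0.2]⟩,
    ⟨B.add_mem h1.1 k1.1, by rw [map_add, h1.2, k1.2]⟩,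
    ⟨B.add_mem h2.1 k2.1, by rw [map_add, h2.2, k2.2]⟩, by ring⟩

private lemma lam_neg {i : ℕ} {x : E} (hx : x ∈ Lam s B f θ c i) :
    -x ∈ Lam s B f θ c i := by
  obtain ⟨a0, a1, a2, h0, h1, h2, rfl⟩ := hx
  refine ⟨-a0, -a1, -a2, ⟨B.neg_mem h0.1, by rw [map_neg, h0.2]⟩,
    ⟨B.neg_mem h1.1, by rw [map_neg, h1.2]⟩,
    ⟨B.neg_mem h2.1, by rw [map_neg, h2.2]⟩, by ring⟩

private lemma lam_sub {i : ℕ} {x y : E} (hx : x ∈ Lam s B f θ c i) (hy : y ∈ Lam s B f θ c i) :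
    x - y ∈ Lam s B f θ c i := by
  rw [sub_eq_add_neg]; exact lam_add hx (lam_neg hy)

private lemma lam_smul {i : ℕ} {a x : E} (ha : a ∈ B) (sa : s a = a)
    (hx : x ∈ Lam s B f θ c i) : a * x ∈ Lam s B f θ c i := by
  obtain ⟨a0, a1, a2, h0, h1, h2, rfl⟩ := hx
  refine ⟨a * a0, a * a1, a * a2, ⟨B.mul_mem ha h0.1, by rw [map_mul, sa, h0.2]⟩,
    ⟨B.mul_mem ha h1.1, by rw [map_mul, sa, h1.2]⟩,
    ⟨B.mul_mem ha h2.1, by rw [map_mul, sa, h2.2]⟩, by ring⟩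

private lemma lam_s (h : NB s B f θ c) {i : ℕ} {x : E} (hx : x ∈ Lam s B f θ c i) :
    s x ∈ Lam s B f θ c i := by
  obtain ⟨a0, a1, a2, h0, h1, h2, rfl⟩ := hx
  refine ⟨a2, a0, a1, h2, h0, h1, ?_⟩
  rw [map_mul, map_pow, h.sf, map_add, map_add, map_mul, map_mul, map_mul, h0.2, h1.2, h2.2, h.s3]
  ring

private lemma lam_B (h : NB s B f θ c) {i : ℕ} {x : E} (hx : x ∈ Lam s B f θ c i) :
    ∃ b ∈ B, x = f ^ (c + 1 + i) * b := by
  obtain ⟨a0, a1, a2, h0, h1, h2, rfl⟩ := hx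
  exact ⟨_, B.add_mem (B.add_mem (B.mul_mem h0.1 h.θB) (B.mul_mem h1.1 (h.sB _ h.θB)))
    (B.mul_mem h2.1 (h.sB _ (h.sB _ h.θB))), rfl⟩

private lemma lam_of_B (h : NB s B f θ c) (i : ℕ) {b : E} (hb : b ∈ B) :
    f ^ (2 * c + 1 + i) * b ∈ Lam s B f θ c i := by
  obtain ⟨a0, a1, a2, h0, h1, h2, h3⟩ := h.gen b hb
  refine ⟨a0, a1, a2, h0, h1, h2, ?_⟩
  rw [← h3]
  ring

private lemma lam_scale (h : NB s B f θ c) (i j : ℕ) {x : E} :
    x ∈ Lam s B f θ c (i + j) ↔ ∃ y ∈ Lam s B f θ c i, x = f ^ j * y := by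
  constructor
  · rintro ⟨a0, a1, a2, h0, h1, h2, rfl⟩
    exact ⟨_, ⟨a0, a1, a2, h0, h1, h2, rfl⟩, by ring⟩
  · rintro ⟨_, ⟨a0, a1, a2, h0, h1, h2, rfl⟩, rfl⟩
    exact ⟨a0, a1, a2, h0, h1, h2, by ring⟩

private lemma lam_mono (h : NB s B f θ c) (i j : ℕ) {x : E}
    (hx : x ∈ Lam s B f θ c (i + j)) : x ∈ Lam s B f θ c i := by
  obtain ⟨y, hy, rfl⟩ := (lam_scale h i j).1 hx
  exact lam_smul (B.pow_mem h.fB j) (by rw [map_pow, h.sf]) hy

private lemma lam_mul (h : NB s B f θ c) {i j : ℕ} {x y b : E}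
    (hx : x ∈ Lam s B f θ c i) (hy : y ∈ Lam s B f θ c j) (hb : b ∈ B) :
    x * y * b ∈ Lam s B f θ c (i + j + 1) := by
  obtain ⟨u, hu, rfl⟩ := lam_B h hx
  obtain ⟨v, hv, rfl⟩ := lam_B h hy
  have := lam_of_B h (i + j + 1) (B.mul_mem (B.mul_mem hu hv) hb)
  have e : f ^ (c + 1 + i) * u * (f ^ (c + 1 + j) * v) * b
      = f ^ (2 * c + 1 + (i + j + 1)) * (u * v * b) := by ring
  rw [e]
  exact this

private lemma one_add_ne (h : NB s B f θ c) {i : ℕ} {x : E} (hx : x ∈ Lam s B f θ c i) :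
    1 + x ≠ 0 ∧ (1 + x)⁻¹ ∈ B := by
  obtain ⟨b, hb, rfl⟩ := lam_B h hx
  have : f ^ (c + 1 + i) * b = f * (f ^ (c + i) * b) := by ring
  rw [this]
  exact h.unit _ (B.mul_mem (B.pow_mem h.fB _) hb)

private lemma one_add_inv (h : NB s B f θ c) {i : ℕ} {x : E} (hx : x ∈ Lam s B f θ c i) :
    ∃ y ∈ Lam s B f θ c i, (1 + x)⁻¹ = 1 + y := by
  obtain ⟨h1, h2⟩ := one_add_ne h hx
  refine ⟨-x + x * x * (1 + x)⁻¹, ?_, ?_⟩
  · refine lam_add (lam_neg hx) (lam_mono h i (i + 1) ?_)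
    have := lam_mul h hx hx h2
    rwa [show i + i + 1 = i + (i + 1) by ring] at this
  · field_simp
    ring

private lemma lam_inv (h : NB s B f θ c) {i j : ℕ} {x y : E} (hx : x ∈ Lam s B f θ c i)
    (hy : y ∈ Lam s B f θ c j) : y * (1 + x)⁻¹ ∈ Lam s B f θ c j := by
  obtain ⟨h1, h2⟩ := one_add_ne h hx
  have e : y * (1 + x)⁻¹ = y - x * y * (1 + x)⁻¹ := by
    field_simp
    ring
  rw [e]
  refine lam_sub hy (lam_mono h j (i + 1) ?_)
  have := lam_mul h hx hy h2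
  rwa [show i + j + 1 = j + (i + 1) by ring] at this

/-- the group `W = 1 + Lam 0` -/
def W (h : NB s B f θ c) : Subgroup Eˣ where
  carrier := {x | (x : E) - 1 ∈ Lam s B f θ c 0}
  mul_mem' := by
    intro x y hx hy
    have hx' : (x : E) - 1 ∈ Lam s B f θ c 0 := hx
    have hy' : (y : E) - 1 ∈ Lam s B f θ c 0 := hy
    have e : ((x * y : Eˣ) : E) - 1 = (x - 1) + (y - 1) + ((x : E) - 1) * ((y : E) - 1) * 1 := by
      push_cast; ring
    show ((x * y : Eˣ) : E) - 1 ∈ Lam s B f θ c 0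
    rw [e]
    exact lam_add (lam_add hx' hy') (lam_mono h 0 1 (lam_mul h hx' hy' B.one_mem))
  one_mem' := by
    show ((1 : Eˣ) : E) - 1 ∈ Lam s B f θ c 0
    rw [Units.val_one, sub_self]
    exact lam_zero 0
  inv_mem' := by
    intro x hx
    have hx' : (x : E) - 1 ∈ Lam s B f θ c 0 := hx
    obtain ⟨y, hy, e⟩ := one_add_inv h hx'
    show ((x⁻¹ : Eˣ) : E) - 1 ∈ Lam s B f θ c 0
    rw [Units.val_inv_eq_inv_val]
    have : 1 + ((x : E) - 1) = x := by ring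
    rw [this] at e
    rw [e, add_sub_cancel_left]
    exact hy

theorem mem_W (h : NB s B f θ c) (x : Eˣ) : x ∈ h.W ↔ (x : E) - 1 ∈ Lam s B f θ c 0 := Iff.rfl

theorem W_map (h : NB s B f θ c) (x : Eˣ) (hx : x ∈ h.W) : Units.map (s : E →* E) x ∈ h.W := by
  have := lam_s h ((h.mem_W x).1 hx)
  rw [mem_W]
  rw [map_sub, map_one] at this
  exact this

theorem W_B (h : NB s B f θ c) (x : Eˣ) (hx : x ∈ h.W) :
    (x : E) ∈ B ∧ ((x⁻¹ : Eˣ) : E) ∈ B ∧ ∃ b ∈ B, (x : E) - 1 = f * b := by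
  have key : ∀ y : Eˣ, y ∈ h.W → (y : E) ∈ B ∧ ∃ b ∈ B, (y : E) - 1 = f * b := by
    intro y hy
    obtain ⟨b, hb, e⟩ := lam_B h ((h.mem_W y).1 hy)
    have e' : (y : E) - 1 = f * (f ^ c * b) := by rw [e]; ring
    refine ⟨?_, f ^ c * b, B.mul_mem (B.pow_mem h.fB _) hb, e'⟩
    have : (y : E) = 1 + f * (f ^ c * b) := by rw [← e']; ring
    rw [this]
    exact B.add_mem B.one_mem (B.mul_mem h.fB (B.mul_mem (B.pow_mem h.fB _) hb))
  exact ⟨(key x hx).1, (key _ (h.W.inv_mem hx)).1, (key x hx).2⟩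

theorem W_of (h : NB s B f θ c) (x : Eˣ) (b : E) (hb : b ∈ B)
    (hx : (x : E) - 1 = f ^ (2 * c + 1) * b) : x ∈ h.W := by
  rw [mem_W, hx]
  exact lam_of_B h 0 hb

/-- one step of the approximation -/
private lemma step (h : NB s B f θ c) (i : ℕ) (z : E) (hz : z ≠ 0) (l : E)
    (hl : l ∈ Lam s B f θ c i) (hzl : s z = z * (1 + l)) :
    ∃ m ∈ Lam s B f θ c 0, ∃ l' ∈ Lam s B f θ c (i + 1),
      z * (1 + m) ≠ 0 ∧ s (z * (1 + m)) = z * (1 + m) * (1 + l') := by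
  -- N(1+l) = 1
  have hN : (1 + l) * (1 + s l) * (1 + s (s l)) = 1 := by
    have e1 : s (s z) = z * (1 + l) * (1 + s l) := by
      rw [hzl, map_mul, hzl, map_add, map_one]
    have e2 : s (s (s z)) = z * (1 + l) * (1 + s l) * (1 + s (s l)) := by
      rw [e1, map_mul, map_mul, hzl, map_add, map_add, map_one]
    rw [h.s3] at e2
    have : z * ((1 + l) * (1 + s l) * (1 + s (s l))) = z * 1 := by
      rw [mul_one, ← mul_assoc, ← mul_assoc]; exact e2.symm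
    exact mul_left_cancel₀ hz this
  have hsl := lam_s h hl
  have hssl := lam_s h hsl
  have hTr : l + s l + s (s l) ∈ Lam s B f θ c (i + 1) := by
    have e : l + s l + s (s l) = -(l * s l * 1 + s l * s (s l) * 1 + s (s l) * l * 1
        + l * s l * s (s l)) := by
      linear_combination hN
    rw [e]
    have b3 : s (s l) ∈ B := by
      obtain ⟨b, hb, e⟩ := lam_B h hssl
      rw [e]; exact B.mul_mem (B.pow_mem h.fB _) hb
    have m1 := lam_mul h hl hsl B.one_mem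
    have m2 := lam_mul h hsl hssl B.one_mem
    have m3 := lam_mul h hssl hl B.one_mem
    have m4 := lam_mul h hl hsl b3
    have := lam_neg (lam_add (lam_add (lam_add m1 m2) m3) m4)
    rw [show i + i + 1 = (i + 1) + i by ring] at this
    exact lam_mono h (i + 1) i this
  -- coordinates
  obtain ⟨a0, a1, a2, h0, h1, h2, el⟩ := hl
  obtain ⟨b0, b1, b2, k0, k1, k2, eT⟩ := hTr
  have sab : s (a0 + a1 + a2) = a0 + a1 + a2 := by rw [map_add, map_add, h0.2, h1.2, h2.2]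
  have hsum : a0 + a1 + a2 = f * b0 := by
    have e1 : f ^ (c + 1 + i) * ((a0 + a1 + a2 - f * b0) * θ + (a0 + a1 + a2 - f * b1) * s θ
        + (a0 + a1 + a2 - f * b2) * s (s θ)) = 0 := by
      have e2 : s l = f ^ (c + 1 + i) * (a2 * θ + a0 * s θ + a1 * s (s θ)) := by
        rw [el, map_mul, map_pow, h.sf, map_add, map_add, map_mul, map_mul, map_mul, h0.2, h1.2,
          h2.2, h.s3]
        ring
      have e3 : s (s l) = f ^ (c + 1 + i) * (a1 * θ + a2 * s θ + a0 * s (s θ)) := by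
        rw [e2, map_mul, map_pow, h.sf, map_add, map_add, map_mul, map_mul, map_mul, h0.2, h1.2,
          h2.2, h.s3]
        ring
      rw [e3, e2, el] at eT
      linear_combination eT
    have e4 := (mul_eq_zero.1 e1).resolve_left (pow_ne_zero _ h.f0)
    have := (h.ind _ _ _ (by rw [map_sub, map_mul, h.sf, k0.2, sab])
      (by rw [map_sub, map_mul, h.sf, k1.2, sab]) (by rw [map_sub, map_mul, h.sf, k2.2, sab]) e4).1
    linear_combination this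
  -- m' with s m' - m' = l - f^(c+1+i) * f * b0 * θ
  set m : E := f ^ (c + 1 + i) * (0 * θ + (-a1) * s θ + (a0 - f * b0) * s (s θ)) with hm
  have hmL : m ∈ Lam s B f θ c i :=
    ⟨0, -a1, a0 - f * b0, ⟨B.zero_mem, map_zero s⟩, ⟨B.neg_mem h1.1, by rw [map_neg, h1.2]⟩,
      ⟨B.sub_mem h0.1 (B.mul_mem h.fB k0.1), by rw [map_sub, map_mul, h.sf, h0.2, k0.2]⟩, hm⟩
  have hsm : s m = f ^ (c + 1 + i) * ((a0 - f * b0) * θ + 0 * s θ + (-a1) * s (s θ)) := by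
    rw [hm, map_mul, map_pow, h.sf, map_add, map_add, map_mul, map_mul, map_mul, map_zero, map_neg,
      map_sub, map_mul, h.sf, h0.2, h1.2, k0.2, h.s3]
    ring
  have hr : l - (s m - m) ∈ Lam s B f θ c (i + 1) := by
    refine ⟨b0, 0, 0, k0, ⟨B.zero_mem, map_zero s⟩, ⟨B.zero_mem, map_zero s⟩, ?_⟩
    rw [el, hsm, hm]
    have : a2 = f * b0 - a0 - a1 := by linear_combination hsum
    rw [this]
    ring
  have hm1 := one_add_ne h (lam_neg hmL)
  have hm0 : -m ∈ Lam s B f θ c 0 := by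
    have := lam_neg hmL
    rw [show i = 0 + i by ring] at this
    exact lam_mono h 0 i this
  have hlL : l ∈ Lam s B f θ c i := ⟨a0, a1, a2, h0, h1, h2, el⟩
  have hsmL := lam_s h hmL
  refine ⟨-m, hm0, ((l - (s m - m)) - l * s m * 1) * (1 + -m)⁻¹, ?_, ?_, ?_⟩
  · refine lam_inv h (lam_neg hmL) (lam_sub hr ?_)
    have := lam_mul h hlL hsmL B.one_mem
    rw [show i + i + 1 = (i + 1) + i by ring] at this
    exact lam_mono h (i + 1) i this
  · exact mul_ne_zero hz hm1.1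
  · rw [map_mul, hzl, map_add, map_one, map_neg]
    have := hm1.1
    field_simp
    ring

private lemma steps (h : NB s B f θ c) (i : ℕ) (z : E) (hz : z ≠ 0) (l : E)
    (hl : l ∈ Lam s B f θ c 0) (hzl : s z = z * (1 + l)) :
    ∃ m ∈ Lam s B f θ c 0, ∃ l' ∈ Lam s B f θ c i,
      z * (1 + m) ≠ 0 ∧ s (z * (1 + m)) = z * (1 + m) * (1 + l') := by
  induction i with
  | zero => exact ⟨0, lam_zero 0, l, hl, by rwa [add_zero, mul_one], by rwa [add_zero, mul_one]⟩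
  | succ i ih =>
    obtain ⟨m, hm, l', hl', h1, h2⟩ := ih
    obtain ⟨m', hm', l'', hl'', h3, h4⟩ := step h i _ h1 l' hl' h2
    refine ⟨m + m' + m * m' * 1, lam_add (lam_add hm hm') (lam_mono h 0 1
      (lam_mul h hm hm' B.one_mem)), l'', hl'', ?_, ?_⟩
    · have : z * (1 + (m + m' + m * m' * 1)) = z * (1 + m) * (1 + m') := by ring
      rwa [this]
    · have : z * (1 + (m + m' + m * m' * 1)) = z * (1 + m) * (1 + m') := by ring
      rwa [this]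

/-- **`H^1(W) = 0`**, strong form. -/
theorem H1 (h : NB s B f θ c) (z : Eˣ) (w : Eˣ) (hw : w ∈ h.W) (hz : s (z : E) = z * w) :
    ∃ a y : Eˣ, s (a : E) = a ∧ y ∈ h.W ∧ z = a * y := by
  obtain ⟨j, b, hb, h3⟩ := h.three
  have hb' : s b = b := by
    have h30 : (3 : E) ≠ 0 := by
      intro h0
      rw [h0, zero_mul, zero_mul] at h3
      exact pow_ne_zero _ h.f0 h3
    have : 3 * f * s b = 3 * f * b := by
      have := congrArg s h3
      rw [map_pow, h.sf, map_mul, map_mul, h.sf, map_ofNat] at this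
      rw [← this, h3]
    exact mul_left_cancel₀ (mul_ne_zero h30 h.f0) this
  have h30 : (3 : E) ≠ 0 := by
    intro h0
    rw [h0, zero_mul, zero_mul] at h3
    exact pow_ne_zero _ h.f0 h3
  obtain ⟨m, hm, l, hl, hne, hsz⟩ := steps h j z z.ne_zero ((w : E) - 1) hw (by
    rw [hz]; ring)
  set z' : E := z * (1 + m) with hz'
  -- l = f^j l0
  obtain ⟨l0, hl0, rfl⟩ := (lam_scale h 0 j).1 (by rwa [zero_add])
  have hsf : s (f ^ j) = f ^ j := by rw [map_pow, h.sf]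
  have hssz : s (s z') = z' * (1 + f ^ j * l0) * (1 + f ^ j * s l0) := by
    rw [hsz, map_mul, hsz, map_add, map_mul, map_one, hsf]
  set r : E := f * b * (2 * l0 + s l0 + f ^ j * (l0 * s l0 * 1)) with hr
  have hrL : r ∈ Lam s B f θ c 0 := by
    rw [hr]
    refine lam_smul (B.mul_mem h.fB hb) (by rw [map_mul, h.sf, hb']) ?_
    have hsl0 := lam_s h hl0
    refine lam_add (lam_add ?_ hsl0) ?_
    · rw [two_mul]; exact lam_add hl0 hl0
    · exact lam_smul (B.pow_mem h.fB j) hsf (lam_mono h 0 1 (lam_mul h hl0 hsl0 B.one_mem))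
  have ha : (z' + s z' + s (s z')) / 3 = z' * (1 + r) := by
    rw [hssz, hsz, hr]
    field_simp
    linear_combination (2 * l0 + s l0 + f ^ j * (l0 * s l0 * 1)) * h3
  have hr1 := one_add_ne h hrL
  have ha0 : (z' + s z' + s (s z')) / 3 ≠ 0 := by
    rw [ha]; exact mul_ne_zero hne hr1.1
  have hm1 := one_add_ne h hm
  have hmW : (Units.mk0 (1 + m) hm1.1) ∈ h.W := by
    rw [mem_W, Units.val_mk0, add_sub_cancel_left]; exact hm
  have hrW : (Units.mk0 (1 + r) hr1.1) ∈ h.W := by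
    rw [mem_W, Units.val_mk0, add_sub_cancel_left]; exact hrL
  refine ⟨Units.mk0 _ ha0, (Units.mk0 (1 + r) hr1.1)⁻¹ * (Units.mk0 (1 + m) hm1.1)⁻¹, ?_,
    h.W.mul_mem (h.W.inv_mem hrW) (h.W.inv_mem hmW), ?_⟩
  · rw [Units.val_mk0, map_div₀, map_add, map_add, h.s3, map_ofNat]
    ring
  · ext
    push_cast
    rw [Units.val_mk0, Units.val_mk0, Units.val_mk0, ha, hz']
    have := hr1.1
    have := hm1.1
    field_simp

end NB

end CF3
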