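import Mathlib

/-!
# CF3.AbsT: the counting argument for the second inequality (cyclic of order 3)

`D` = fractional ideals prime to `f`, `W` = a subgroup of `E^*` with `H^1(W) = 0`, `delta x = (x)`.
-/

namespace CF3

/-- the counting argument: `D^s` is bigger than `delta(W^s) * N D`. -/
theorem abstractT {D W : Type*} [CommGroup D] [CommGroup W] (sD : D →* D) (sW : W →* W)
    (δ : W →* D)
    (hD : ∀ d, sD (sD (sD d)) = d) (hW : ∀ x, sW (sW (sW x)) = x)
    (hδ : ∀ x, δ (sW x) = sD (δ x))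
    (hfin : Finite (D ⧸ δ.range))
    (hH1 : ∀ x, x * sW x * sW (sW x) = 1 → ∃ y, x * y = sW y)
    (Uf : Subgroup W) (hUf : ∀ x, x ∈ Uf ↔ δ x = 1 ∧ sW x = x) (hfix : Finite Uf)
    (hU : Nat.card Uf < (δ.ker.map (sW / MonoidHom.id W)).relIndex δ.ker) :
    ∃ d, sD d = d ∧ ∀ a c, sW a = a → d ≠ δ a * (c * sD c * sD (sD c)) := by
  classical
  by_contra hcon
  push Not at hcon
  -- the finite group C
  let C := D ⧸ δ.range
  let q : D →* C := QuotientGroup.mk' δ.range
  -- sigma on C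
  have hker : δ.range ≤ δ.range.comap sD := by
    rintro _ ⟨x, rfl⟩
    exact ⟨sW x, hδ x⟩
  let sC : C →* C := QuotientGroup.map δ.range δ.range sD hker
  have hsC : ∀ d, sC (q d) = q (sD d) := fun d => rfl
  -- ψ = (s-1) on C
  let ψ : C →* C := sC / MonoidHom.id C
  have hψ : ∀ c, ψ c = sC c / c := fun c => rfl
  -- the group F = D^s, subgroup P = δ(W^s)
  let F : Subgroup D := (sD.eqLocus (MonoidHom.id D))
  have hF : ∀ d, d ∈ F ↔ sD d = d := fun d => Iff.rfl
  let P : Subgroup D := (sW.eqLocus (MonoidHom.id W)).map δ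
  have hP : ∀ d, d ∈ P ↔ ∃ a, sW a = a ∧ δ a = d := fun d => Iff.rfl
  have hPF : P ≤ F := by
    intro d hd
    obtain ⟨a, ha, rfl⟩ := (hP d).1 hd
    rw [hF, ← hδ, ha]
  -- norm map
  let N : D →* D := MonoidHom.id D * sD * (sD.comp sD)
  have hN : ∀ c, N c = c * sD c * sD (sD c) := fun c => rfl
  have hNF : ∀ c, N c ∈ F := by
    intro c
    rw [hF, hN, map_mul, map_mul, hD, mul_comm (sD c * sD (sD c)) c, mul_assoc]
  -- every element of F is in P * N D
  have hcover : ∀ d ∈ F, ∃ p ∈ P, ∃ c, d = p * N c := by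
    intro d hd
    obtain ⟨a, c, ha, h⟩ := hcon d ((hF d).1 hd)
    exact ⟨δ a, (hP _).2 ⟨a, ha, rfl⟩, c, h⟩
  -- Q = D / P, norm induces C → D/P, with image F/P
  let r : D →* D ⧸ P := QuotientGroup.mk' P
  have hkerN : δ.range ≤ (r.comp N).ker := by
    rintro _ ⟨x, rfl⟩
    rw [MonoidHom.mem_ker, MonoidHom.comp_apply]
    show (QuotientGroup.mk' P) _ = 1
    rw [QuotientGroup.mk'_apply, QuotientGroup.eq_one_iff, hP]
    refine ⟨x * sW x * sW (sW x), ?_, ?_⟩
    · rw [map_mul, map_mul, hW, mul_comm (sW x * sW (sW x)) x, mul_assoc]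
    · rw [hN, map_mul, map_mul, hδ, hδ, hδ]
  let NC : C →* D ⧸ P := QuotientGroup.lift δ.range (r.comp N) hkerN
  have hNC : ∀ d, NC (q d) = r (N d) := fun d => rfl
  have hNCψ : ψ.range ≤ NC.ker := by
    rintro _ ⟨c, rfl⟩
    obtain ⟨d, rfl⟩ := QuotientGroup.mk'_surjective _ c
    rw [MonoidHom.mem_ker, hψ]
    show NC (sC (q d) / q d) = 1
    rw [hsC, map_div, hNC, hNC, div_eq_one]
    congr 1
    rw [hN, hN, hD, mul_comm (sD d * sD (sD d)) d, mul_assoc]
  -- the range of NC is the image of F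
  have hNCr : NC.range = F.map r := by
    ext c
    constructor
    · rintro ⟨c, rfl⟩
      obtain ⟨d, rfl⟩ := QuotientGroup.mk'_surjective _ c
      exact ⟨N d, hNF d, rfl⟩
    · rintro ⟨d, hd, rfl⟩
      obtain ⟨p, hp, c, rfl⟩ := hcover d hd
      refine ⟨q c, ?_⟩
      rw [hNC]
      show (QuotientGroup.mk' P) _ = (QuotientGroup.mk' P) _
      rw [QuotientGroup.mk'_apply, QuotientGroup.mk'_apply, QuotientGroup.eq]
      have : (N c)⁻¹ * (p * N c) = p := by rw [mul_comm p, inv_mul_cancel_left]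
      rwa [this]
  -- the counting: fact 1
  have hfinC : Finite C := hfin
  have hc1 : Nat.card ψ.ker * Nat.card ψ.range = Nat.card C := by
    have := Subgroup.card_mul_index ψ.ker
    rw [Subgroup.index_ker] at this
    exact this
  have hc2 : Nat.card NC.ker * Nat.card NC.range = Nat.card C := by
    have := Subgroup.card_mul_index NC.ker
    rw [Subgroup.index_ker] at this
    exact this
  have hc3 : Nat.card ψ.range ≤ Nat.card NC.ker := Subgroup.card_le_of_le hNCψ
  have hc4 : Nat.card (F.map r) ≤ Nat.card ψ.ker := by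
    rw [← hNCr]
    by_contra hlt
    push Not at hlt
    have h1 : Nat.card ψ.range * Nat.card ψ.ker < Nat.card NC.ker * Nat.card NC.range :=
      Nat.mul_lt_mul_of_le_of_lt hc3 hlt Nat.card_pos
    rw [hc2, mul_comm, hc1] at h1
    exact lt_irrefl _ h1
  -- notation in W
  set γ : W →* W := sW / MonoidHom.id W with hγdef
  have hγ : ∀ x, γ x = sW x / x := fun x => rfl
  let NW : W →* W := MonoidHom.id W * sW * (sW.comp sW)
  have hNW : ∀ x, NW x = x * sW x * sW (sW x) := fun x => rfl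
  have hNWs : ∀ x, sW (NW x) = NW x := by
    intro x
    rw [hNW, map_mul, map_mul, hW, mul_comm (sW x * sW (sW x)) x, mul_assoc]
  have hNWγ : ∀ x, NW (γ x) = 1 := by
    intro x
    rw [hγ, map_div, div_eq_one, hNW, hNW, hW, mul_comm (sW x * sW (sW x)) x, mul_assoc]
  have hNδ : ∀ x, δ (NW x) = N (δ x) := by
    intro x
    rw [hNW, hN, map_mul, map_mul, hδ, hδ, hδ]
  set U : Subgroup W := δ.ker with hUdef
  have hmU : ∀ x, x ∈ U ↔ δ x = 1 := fun x => Iff.rfl
  have hγU : U.map γ ≤ U ⊓ NW.ker := by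
    rintro _ ⟨u, hu, rfl⟩
    refine ⟨?_, hNWγ u⟩
    have hu' : δ u = 1 := hu
    show δ (γ u) = 1
    rw [hγ, map_div, hδ, hu', map_one, div_one]
  -- fact 2
  have hrker : r.ker = P := QuotientGroup.ker_mk' P
  have hqker : q.ker = δ.range := QuotientGroup.ker_mk' _
  have hB1 : (U.map γ).relIndex (U ⊓ NW.ker) * Nat.card (U.map NW) = (U.map γ).relIndex U := by
    rw [← Subgroup.relIndex_mul_relIndex _ _ _ hγU inf_le_left, Subgroup.inf_relIndex_left,
      Subgroup.relIndex_ker]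
  have hPc : P.comap δ = (U.map γ).comap γ := by
    ext x
    constructor
    · rintro ⟨a, ha, hax⟩
      have ha' : sW a = a := ha
      refine ⟨x / a, ?_, ?_⟩
      · show δ (x / a) = 1
        rw [map_div, hax, div_self']
      · rw [map_div, hγ a, ha', div_self', div_one]
    · rintro ⟨u, hu, hux⟩
      have hu' : δ u = 1 := hu
      refine ⟨x / u, ?_, ?_⟩
      · show sW (x / u) = x / u
        have h1 : γ (x / u) = 1 := by rw [map_div, hux, div_self']
        rw [hγ] at h1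
        exact div_eq_one.1 h1
      · rw [map_div, hu', div_one]
  have hYγ : (F.comap δ).map γ = U ⊓ NW.ker := by
    ext x
    constructor
    · rintro ⟨y, hy, rfl⟩
      have hy' : sD (δ y) = δ y := hy
      refine ⟨?_, hNWγ y⟩
      show δ (γ y) = 1
      rw [hγ, map_div, hδ, hy', div_self']
    · rintro ⟨hx, hx2⟩
      have hx' : δ x = 1 := hx
      obtain ⟨y, hy⟩ := hH1 x hx2
      refine ⟨y, ?_, ?_⟩
      · show sD (δ y) = δ y
        rw [← hδ, ← hy, map_mul, hx', one_mul]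
      · rw [hγ, ← hy, mul_div_cancel_right]
  have hPR : P ≤ δ.range ⊓ F := by
    intro d hd
    refine ⟨?_, hPF hd⟩
    obtain ⟨a, _, rfl⟩ := (hP d).1 hd
    exact ⟨a, rfl⟩
  have hB2 : P.relIndex (δ.range ⊓ F) = (U.map γ).relIndex (U ⊓ NW.ker) := by
    have : (F.comap δ).map δ = δ.range ⊓ F := Subgroup.map_comap_eq δ F
    rw [← this, ← Subgroup.relIndex_comap, hPc, Subgroup.relIndex_comap, hYγ]
  have hB : Nat.card (F.map r) * Nat.card (U.map NW) =
      Nat.card (F.map q) * (U.map γ).relIndex U := by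
    rw [← Subgroup.relIndex_ker, hrker, ← Subgroup.relIndex_ker F q, hqker,
      ← Subgroup.relIndex_mul_relIndex _ _ _ hPR inf_le_right, hB2, Subgroup.inf_relIndex_right,
      ← hB1]
    ring
  -- fact 3
  have hqψ : F.map q ≤ ψ.ker := by
    rintro _ ⟨d, hd, rfl⟩
    rw [MonoidHom.mem_ker, hψ]
    have : sC (q d) = q d := by rw [hsC, (hF d).1 hd]
    rw [this, div_self']
  let X : Subgroup (D × W) := (sD.comp (MonoidHom.fst D W)).eqLocus
    ((MonoidHom.fst D W) * (δ.comp (MonoidHom.snd D W)))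
  have hX : ∀ p : D × W, p ∈ X ↔ sD p.1 = p.1 * δ p.2 := fun p => Iff.rfl
  let α : D × W →* C := q.comp (MonoidHom.fst D W)
  let β : D × W →* W := NW.comp (MonoidHom.snd D W)
  have hXα : X.map α = ψ.ker := by
    ext c
    constructor
    · rintro ⟨p, hp, rfl⟩
      rw [MonoidHom.mem_ker, hψ]
      show sC (q p.1) / q p.1 = 1
      rw [hsC, (hX p).1 hp, map_mul, div_eq_one]
      have : q (δ p.2) = 1 := by
        rw [← MonoidHom.mem_ker, hqker]; exact ⟨_, rfl⟩
      rw [this, mul_one]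
    · intro hc
      obtain ⟨d, rfl⟩ := QuotientGroup.mk'_surjective _ c
      rw [MonoidHom.mem_ker, hψ] at hc
      have hc' : q (sD d) = q d := by
        have : sC (q d) = q d := div_eq_one.1 hc
        rwa [hsC] at this
      have : d⁻¹ * sD d ∈ δ.range := by
        rw [← QuotientGroup.eq]
        exact hc'.symm
      obtain ⟨x, hx⟩ := this
      refine ⟨(d, x), ?_, rfl⟩
      show sD d = d * δ x
      rw [hx]; group
  have hXβ : X.map β ≤ Uf := by
    rintro _ ⟨p, hp, rfl⟩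
    rw [hUf]
    refine ⟨?_, hNWs _⟩
    show δ (NW p.2) = 1
    have hx' : sD p.1 = p.1 * δ p.2 := (hX p).1 hp
    rw [hNδ, hN]
    have e1 : sD (sD p.1) = p.1 * δ p.2 * sD (δ p.2) := by
      rw [hx', map_mul, hx']
    have e2 : sD (sD (sD p.1)) = p.1 * δ p.2 * sD (δ p.2) * sD (sD (δ p.2)) := by
      rw [e1, map_mul, map_mul, hx']
    rw [hD] at e2
    have : p.1 * (δ p.2 * sD (δ p.2) * sD (sD (δ p.2))) = p.1 * 1 := by
      rw [mul_one]; rw [← mul_assoc, ← mul_assoc]; exact e2.symm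
    exact mul_left_cancel this
  have hXαβ : ((U.map NW).comap β) ⊓ X ≤ (F.map q).comap α := by
    rintro p ⟨⟨u, hu, hup⟩, hp⟩
    have hu' : δ u = 1 := hu
    have hx' : sD p.1 = p.1 * δ p.2 := (hX p).1 hp
    have hup' : NW u = NW p.2 := hup
    obtain ⟨y, hy⟩ := hH1 (p.2 / u) (by
      show NW (p.2 / u) = 1
      rw [map_div, hup', div_self'])
    refine ⟨p.1 / δ y, ?_, ?_⟩
    · show sD (p.1 / δ y) = p.1 / δ y
      rw [map_div, ← hδ, ← hy, map_mul, map_div, hu', div_one, hx', mul_comm (δ p.2) (δ y),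
        mul_div_mul_right_eq_div]
    · show q (p.1 / δ y) = q p.1
      rw [map_div]
      have : q (δ y) = 1 := by
        rw [← MonoidHom.mem_ker, hqker]; exact ⟨_, rfl⟩
      rw [this, div_one]
  have hUN : U.map NW ≤ Uf := by
    rintro _ ⟨u, hu, rfl⟩
    have hu' : δ u = 1 := hu
    rw [hUf]
    refine ⟨?_, hNWs u⟩
    rw [hNδ, hu', hN, map_one, map_one]
    simp
  have hcUf : Nat.card (U.map NW) * (U.map NW).relIndex Uf = Nat.card Uf := by
    rw [← Subgroup.relIndex_bot_left, ← Subgroup.relIndex_bot_left,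
      Subgroup.relIndex_mul_relIndex _ _ _ bot_le hUN]
  have hUf0 : Nat.card Uf ≠ 0 := Nat.card_pos.ne'
  have hrel0 : (U.map NW).relIndex Uf ≠ 0 := by
    intro h
    rw [h, mul_zero] at hcUf
    exact hUf0 hcUf.symm
  have hUN0 : Nat.card (U.map NW) ≠ 0 := by
    intro h
    rw [h, zero_mul] at hcUf
    exact hUf0 hcUf.symm
  have hrelX : ((U.map NW).comap β).relIndex X ≠ 0 := by
    rw [Subgroup.relIndex_comap]
    intro h
    exact hrel0 (Subgroup.relIndex_eq_zero_of_le_right hXβ h)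
  have hA1 : (F.map q).relIndex ψ.ker ≤ (U.map NW).relIndex Uf := by
    rw [← hXα, ← Subgroup.relIndex_comap]
    calc ((F.map q).comap α).relIndex X ≤ (((U.map NW).comap β) ⊓ X).relIndex X :=
          Subgroup.relIndex_le_of_le_left hXαβ (by rwa [Subgroup.inf_relIndex_right])
      _ = ((U.map NW).comap β).relIndex X := Subgroup.inf_relIndex_right _ _
      _ = (U.map NW).relIndex (X.map β) := Subgroup.relIndex_comap _ _ _
      _ ≤ (U.map NW).relIndex Uf := Subgroup.relIndex_le_of_le_right hXβ hrel0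
  have hA : Nat.card ψ.ker * Nat.card (U.map NW) ≤ Nat.card (F.map q) * Nat.card Uf := by
    have h1 : Nat.card (F.map q) * (F.map q).relIndex ψ.ker = Nat.card ψ.ker := by
      rw [← Subgroup.relIndex_bot_left, ← Subgroup.relIndex_bot_left,
        Subgroup.relIndex_mul_relIndex _ _ _ bot_le hqψ]
    rw [← h1, ← hcUf]
    calc Nat.card (F.map q) * (F.map q).relIndex ψ.ker * Nat.card (U.map NW)
        ≤ Nat.card (F.map q) * (U.map NW).relIndex Uf * Nat.card (U.map NW) :=
          Nat.mul_le_mul_right _ (Nat.mul_le_mul_left _ hA1)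
      _ = _ := by ring
  -- conclusion
  have hψ0 : 0 < Nat.card ψ.ker := Nat.card_pos
  have hn0 : 0 < Nat.card (U.map NW) := Nat.pos_of_ne_zero hUN0
  have hfinal : Nat.card ψ.ker * Nat.card (U.map NW) * (U.map γ).relIndex U ≤
      Nat.card ψ.ker * Nat.card (U.map NW) * Nat.card Uf := by
    calc Nat.card ψ.ker * Nat.card (U.map NW) * (U.map γ).relIndex U
        ≤ Nat.card (F.map q) * Nat.card Uf * (U.map γ).relIndex U := Nat.mul_le_mul_right _ hA
      _ = Nat.card (F.map q) * (U.map γ).relIndex U * Nat.card Uf := by ring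
      _ = Nat.card (F.map r) * Nat.card (U.map NW) * Nat.card Uf := by rw [hB]
      _ ≤ Nat.card ψ.ker * Nat.card (U.map NW) * Nat.card Uf :=
          Nat.mul_le_mul_right _ (Nat.mul_le_mul_right _ hc4)
  have := Nat.le_of_mul_le_mul_left hfinal (Nat.mul_pos hψ0 hn0)
  exact absurd hU (not_lt.2 this)

/-- character of order three on `D^s`, trivial on `delta(W^s)` and on norms. -/
theorem abstractChar {D W : Type*} [CommGroup D] [CommGroup W] (sD : D →* D) (sW : W →* W)
    (δ : W →* D)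
    (hD : ∀ d, sD (sD (sD d)) = d) (hW : ∀ x, sW (sW (sW x)) = x)
    (hδ : ∀ x, δ (sW x) = sD (δ x))
    (hfin : Finite (D ⧸ δ.range))
    (hH1 : ∀ x, x * sW x * sW (sW x) = 1 → ∃ y, x * y = sW y)
    (Uf : Subgroup W) (hUf : ∀ x, x ∈ Uf ↔ δ x = 1 ∧ sW x = x) (hfix : Finite Uf)
    (hU : Nat.card Uf < (δ.ker.map (sW / MonoidHom.id W)).relIndex δ.ker) :
    ∃ χ : D → ZMod 3, (∀ d e, sD d = d → sD e = e → χ (d * e) = χ d + χ e) ∧
      (∀ a, sW a = a → χ (δ a) = 0) ∧ (∀ c, χ (c * sD c * sD (sD c)) = 0) ∧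
      ∃ d, sD d = d ∧ χ d ≠ 0 := by
  classical
  obtain ⟨d0, hd0, hd0'⟩ := abstractT sD sW δ hD hW hδ hfin hH1 Uf hUf hfix hU
  let F : Subgroup D := (sD.eqLocus (MonoidHom.id D))
  have hF : ∀ d, d ∈ F ↔ sD d = d := fun d => Iff.rfl
  let P : Subgroup D := (sW.eqLocus (MonoidHom.id W)).map δ
  let N : D →* D := MonoidHom.id D * sD * (sD.comp sD)
  have hN : ∀ c, N c = c * sD c * sD (sD c) := fun c => rfl
  let H : Subgroup D := P ⊔ N.range
  let HF : Subgroup F := H.subgroupOf F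
  let V := F ⧸ HF
  have hV : ∀ v : V, v ^ 3 = 1 := by
    intro v
    obtain ⟨x, rfl⟩ := QuotientGroup.mk'_surjective _ v
    rw [← map_pow, QuotientGroup.mk'_apply, QuotientGroup.eq_one_iff]
    show ((x ^ 3 : F) : D) ∈ H
    have : ((x ^ 3 : F) : D) = N x := by
      have hx : sD (x : D) = x := (hF _).1 x.2
      rw [hN, hx, hx]
      simp [pow_succ]
    rw [this]
    exact Subgroup.mem_sup_right ⟨_, rfl⟩
  let _inst : Module (ZMod 3) (Additive V) := AddCommGroup.zmodModule (by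
    intro v
    exact hV v.toMul)
  let x0 : V := QuotientGroup.mk' HF ⟨d0, (hF _).2 hd0⟩
  have hx0 : (Additive.ofMul x0) ≠ 0 := by
    intro h
    have h1 : x0 = 1 := h
    have h2 : (QuotientGroup.mk' HF) (⟨d0, (hF _).2 hd0⟩ : F) = 1 := h1
    rw [QuotientGroup.mk'_apply, QuotientGroup.eq_one_iff] at h2
    have h3 : d0 ∈ P ⊔ N.range := h2
    obtain ⟨p, hp, n, hn, hpn⟩ := Subgroup.mem_sup.1 h3
    obtain ⟨a, ha, rfl⟩ := hp
    obtain ⟨c, rfl⟩ := hn
    exact hd0' a c ha hpn.symm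
  obtain ⟨φ, hφ⟩ : ∃ φ : Module.Dual (ZMod 3) (Additive V), φ (Additive.ofMul x0) ≠ 0 := by
    by_contra h
    push Not at h
    exact hx0 ((Module.forall_dual_apply_eq_zero_iff (ZMod 3) _).1 h)
  let χ : D → ZMod 3 := fun d =>
    if h : sD d = d then φ (Additive.ofMul (QuotientGroup.mk' HF ⟨d, (hF _).2 h⟩)) else 0
  have hχ : ∀ d (h : sD d = d),
      χ d = φ (Additive.ofMul (QuotientGroup.mk' HF ⟨d, (hF _).2 h⟩)) := by
    intro d h
    simp only [χ, dif_pos h]
  have hχ0 : ∀ d, sD d = d → d ∈ H → χ d = 0 := by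
    intro d h hd
    rw [hχ d h]
    have : QuotientGroup.mk' HF (⟨d, (hF _).2 h⟩ : F) = 1 := by
      rw [QuotientGroup.mk'_apply, QuotientGroup.eq_one_iff]
      exact hd
    rw [this]
    exact map_zero φ
  refine ⟨χ, ?_, ?_, ?_, d0, hd0, ?_⟩
  · intro d e hd he
    have hde : sD (d * e) = d * e := by rw [map_mul, hd, he]
    rw [hχ d hd, hχ e he, hχ _ hde, ← map_add, ← ofMul_mul, ← map_mul]
    rfl
  · intro a ha
    apply hχ0
    · rw [← hδ, ha]
    · exact Subgroup.mem_sup_left ⟨a, ha, rfl⟩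
  · intro c
    apply hχ0
    · rw [map_mul, map_mul, hD, mul_comm (sD c * sD (sD c)) c, mul_assoc]
    · exact Subgroup.mem_sup_right ⟨c, rfl⟩
  · rw [hχ d0 hd0]
    exact hφ

end CF3
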