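import Mathlib

/-!
# CF3.Defs: S-integers, ideals and fractional ideals prime to f, the action of an automorphism
-/

namespace CF3

open NumberField nonZeroDivisors

/-- elements of `E` of the form `α/β`, `α, β` integral, `β` prime to `f`. -/
def SInt (E : Type*) [Field E] (f : ℕ) : Subring E where
  carrier := {x | ∃ α β : 𝓞 E, IsCoprime β (f : 𝓞 E) ∧ x * algebraMap (𝓞 E) E β = algebraMap (𝓞 E) E α}
  mul_mem' := by
    rintro x y ⟨α, β, h, e⟩ ⟨α', β', h', e'⟩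
    refine ⟨α * α', β * β', h.mul_left h', ?_⟩
    rw [map_mul, map_mul, ← e, ← e']
    ring
  one_mem' := ⟨1, 1, isCoprime_one_left, by simp⟩
  add_mem' := by
    rintro x y ⟨α, β, h, e⟩ ⟨α', β', h', e'⟩
    refine ⟨α * β' + α' * β, β * β', h.mul_left h', ?_⟩
    rw [map_mul, map_add, map_mul, map_mul, ← e, ← e']
    ring
  zero_mem' := ⟨0, 1, isCoprime_one_left, by simp⟩
  neg_mem' := by
    rintro x ⟨α, β, h, e⟩
    exact ⟨-α, β, h, by rw [map_neg, ← e]; ring⟩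

theorem mem_SInt {E : Type*} [Field E] {f : ℕ} {x : E} :
    x ∈ SInt E f ↔ ∃ α β : 𝓞 E, IsCoprime β (f : 𝓞 E) ∧ x * algebraMap (𝓞 E) E β = algebraMap (𝓞 E) E α := Iff.rfl

/-- the ideal `I` is prime to `f` -/
def Cop {E : Type*} [Field E] (f : ℕ) (I : Ideal (𝓞 E)) : Prop :=
  IsCoprime I (Ideal.span {(f : 𝓞 E)})

/-- fractional ideals of `E` prime to `f` -/
def DS (E : Type*) [Field E] [NumberField E] (f : ℕ) : Subgroup (FractionalIdeal (𝓞 E)⁰ E)ˣ where
  carrier := {d | ∃ I J : Ideal (𝓞 E), I ≠ ⊥ ∧ J ≠ ⊥ ∧ Cop f I ∧ Cop f J ∧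
    (d : FractionalIdeal (𝓞 E)⁰ E) * J = I}
  mul_mem' := by
    rintro x y ⟨I, J, h1, h2, h3, h4, h5⟩ ⟨I', J', h1', h2', h3', h4', h5'⟩
    refine ⟨I * I', J * J', mul_ne_zero h1 h1', mul_ne_zero h2 h2', h3.mul_left h3',
      h4.mul_left h4', ?_⟩
    rw [FractionalIdeal.coeIdeal_mul, FractionalIdeal.coeIdeal_mul, ← h5, ← h5']
    push_cast
    ring
  one_mem' := ⟨1, 1, one_ne_zero, one_ne_zero, isCoprime_one_left, isCoprime_one_left, by simp⟩
  inv_mem' := by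
    rintro x ⟨I, J, h1, h2, h3, h4, h5⟩
    refine ⟨J, I, h2, h1, h4, h3, ?_⟩
    rw [← h5, ← mul_assoc, ← Units.val_mul, inv_mul_cancel, Units.val_one, one_mul]

/-- the action of an automorphism on the integers -/
noncomputable def sO {k E : Type*} [Field k] [Field E] [Algebra k E] (σ : E ≃ₐ[k] E) :
    𝓞 E ≃+* 𝓞 E := RingOfIntegers.mapRingEquiv (σ : E ≃+* E)

theorem sO_apply {k E : Type*} [Field k] [Field E] [Algebra k E] (σ : E ≃ₐ[k] E) (x : 𝓞 E) :
    ((sO σ x : 𝓞 E) : E) = σ (x : E) := rfl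

/-- the action of an automorphism on fractional ideals -/
noncomputable def sF {k E : Type*} [Field k] [Field E] [NumberField E] [Algebra k E]
    (σ : E ≃ₐ[k] E) : FractionalIdeal (𝓞 E)⁰ E →+* FractionalIdeal (𝓞 E)⁰ E :=
  FractionalIdeal.extendedHom' (f := ((sO σ : 𝓞 E ≃+* 𝓞 E) : 𝓞 E →+* 𝓞 E)) (K := E) E
    (nonZeroDivisors_le_comap_nonZeroDivisors_of_injective _ (sO σ).injective)

theorem sF_coe {k E : Type*} [Field k] [Field E] [NumberField E] [Algebra k E]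
    (σ : E ≃ₐ[k] E) (I : Ideal (𝓞 E)) :
    sF σ (I : FractionalIdeal (𝓞 E)⁰ E) = ((I.map (sO σ) : Ideal (𝓞 E)) : FractionalIdeal (𝓞 E)⁰ E) :=
  FractionalIdeal.extended_coeIdeal_eq_map E _ I

theorem sF_span {k E : Type*} [Field k] [Field E] [NumberField E] [Algebra k E]
    (σ : E ≃ₐ[k] E) (x : E) :
    sF σ (FractionalIdeal.spanSingleton (𝓞 E)⁰ x) = FractionalIdeal.spanSingleton (𝓞 E)⁰ (σ x) := by
  have h := FractionalIdeal.extended_spanSingleton (f := ((sO σ : 𝓞 E ≃+* 𝓞 E) : 𝓞 E →+* 𝓞 E))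
    (K := E) (M := (𝓞 E)⁰) (N := (𝓞 E)⁰) E
    (nonZeroDivisors_le_comap_nonZeroDivisors_of_injective _ (sO σ).injective) x
  have h2 : IsLocalization.map (S := E) E ((sO σ : 𝓞 E ≃+* 𝓞 E) : 𝓞 E →+* 𝓞 E)
    (nonZeroDivisors_le_comap_nonZeroDivisors_of_injective _ (sO σ).injective) =
      ((σ : E ≃+* E) : E →+* E) := by
    apply IsLocalization.ringHom_ext (𝓞 E)⁰
    ext x
    simp only [RingHom.comp_apply, IsLocalization.map_eq]
    rfl
  have h3 : sF σ (FractionalIdeal.spanSingleton (𝓞 E)⁰ x) =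
    FractionalIdeal.extended E
      (nonZeroDivisors_le_comap_nonZeroDivisors_of_injective _ (sO σ).injective)
      (FractionalIdeal.spanSingleton (𝓞 E)⁰ x) := rfl
  refine (h3.trans h).trans ?_
  congr 1
  exact congrArg (fun g : E →+* E => g x) h2

end CF3
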