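import Pool.Agent.Lib.CF3.Princ

/-!
# CF3.Fin: the ray class group is finite
-/

namespace CF3

open NumberField nonZeroDivisors

variable {E : Type*} [Field E] [NumberField E]

/-- `x ↦ (x)` on a subgroup `W` of `E^*` consisting of S-units. -/
noncomputable def delta (f : ℕ) (hf : 0 < f) (W : Subgroup Eˣ)
    (hW : ∀ x ∈ W, (x : E) ∈ SInt E f) : W →* DS E f :=
  ((toPrincipalIdeal (𝓞 E) E).comp W.subtype).codRestrict (DS E f) (fun x =>
    toPrincipal_mem hf x.1 (hW _ x.2) (hW _ (W.inv_mem x.2)))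

theorem delta_coe (f : ℕ) (hf : 0 < f) (W : Subgroup Eˣ)
    (hW : ∀ x ∈ W, (x : E) ∈ SInt E f) (x : W) :
    ((delta f hf W hW x : DS E f) : (FractionalIdeal (𝓞 E)⁰ E)ˣ) =
      toPrincipalIdeal (𝓞 E) E (x : Eˣ) := rfl

theorem finite_quot (f : ℕ) (hf : 0 < f) (W : Subgroup Eˣ)
    (hW : ∀ x ∈ W, (x : E) ∈ SInt E f) (N : ℕ)
    (hN : ∀ x : Eˣ, ∀ b ∈ SInt E f, (x : E) - 1 = (f : E) ^ N * b → x ∈ W) :
    Finite (DS E f ⧸ (delta f hf W hW).range) := by
  classical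
  let G := (FractionalIdeal (𝓞 E)⁰ E)ˣ
  let PE : Subgroup G := (toPrincipalIdeal (𝓞 E) E).range
  have hfin : Finite (G ⧸ PE) := Finite.of_equiv _ (ClassGroup.equiv E).toEquiv
  let I : Ideal (𝓞 E) := Ideal.span {(f : 𝓞 E) ^ N}
  have hI : I ≠ ⊥ := by
    intro h
    have := Ideal.span_singleton_eq_bot.1 h
    have h2 : (f : 𝓞 E) ≠ 0 := by
      exact_mod_cast (by omega : f ≠ 0)
    exact pow_ne_zero N h2 this
  have hfinI : Finite (𝓞 E ⧸ I) := Ideal.finiteQuotientOfFreeOfNeBot I hI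
  let rep : G ⧸ PE → DS E f := fun c =>
    if h : ∃ d : DS E f, (QuotientGroup.mk (d : G) : G ⧸ PE) = c then h.choose else 1
  have hrep : ∀ d : DS E f, (QuotientGroup.mk (rep (QuotientGroup.mk (d : G)) : G) : G ⧸ PE) =
      QuotientGroup.mk (d : G) := by
    intro d
    have h : ∃ d' : DS E f, (QuotientGroup.mk (d' : G) : G ⧸ PE) = QuotientGroup.mk (d : G) :=
      ⟨d, rfl⟩
    simp only [rep, dif_pos h]
    exact h.choose_spec
  have key : ∀ d : DS E f, ∃ x : Eˣ, ∃ α β : 𝓞 E,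
      (d : G) = (rep (QuotientGroup.mk (d : G)) : G) * toPrincipalIdeal (𝓞 E) E x ∧
      α ≠ 0 ∧ β ≠ 0 ∧ IsCoprime α (f : 𝓞 E) ∧ IsCoprime β (f : 𝓞 E) ∧
      (x : E) * algebraMap (𝓞 E) E β = algebraMap (𝓞 E) E α := by
    intro d
    obtain ⟨x, hx⟩ := QuotientGroup.eq.1 (hrep d)
    have hx' : toPrincipalIdeal (𝓞 E) E x ∈ DS E f := by
      rw [hx]
      exact (DS E f).mul_mem ((DS E f).inv_mem (rep _).2) d.2
    have hxi : toPrincipalIdeal (𝓞 E) E x⁻¹ ∈ DS E f := by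
      rw [map_inv]; exact (DS E f).inv_mem hx'
    obtain ⟨α, β, hα0, hβ0, hα, hβ, e⟩ :=
      SInt_repr hf x (mem_of_toPrincipal x hx') (mem_of_toPrincipal x⁻¹ hxi)
    refine ⟨x, α, β, ?_, hα0, hβ0, hα, hβ, e⟩
    rw [hx, mul_inv_cancel_left]
  choose X A B h1 hA hB h2 h3 h4 using key
  let F : DS E f → (G ⧸ PE) × (𝓞 E ⧸ I) × (𝓞 E ⧸ I) := fun d =>
    (QuotientGroup.mk (d : G), Ideal.Quotient.mk I (A d), Ideal.Quotient.mk I (B d))
  have hF : ∀ d d', F d = F d' → (QuotientGroup.mk d : DS E f ⧸ (delta f hf W hW).range) =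
      QuotientGroup.mk d' := by
    intro d d' h
    have e1 : (QuotientGroup.mk (d : G) : G ⧸ PE) = QuotientGroup.mk (d' : G) :=
      congrArg Prod.fst h
    have e2 : A d - A d' ∈ I := Ideal.Quotient.eq.1 (congrArg (fun z => z.2.1) h)
    have e3 : B d - B d' ∈ I := Ideal.Quotient.eq.1 (congrArg (fun z => z.2.2) h)
    have e4 : A d' * B d - A d * B d' ∈ I := by
      have : A d' * B d - A d * B d' = A d' * (B d - B d') - (A d - A d') * B d' := by ring
      rw [this]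
      exact I.sub_mem (I.mul_mem_left _ e3) (I.mul_mem_right _ e2)
    obtain ⟨γ, hγ⟩ := Ideal.mem_span_singleton.1 e4
    have hW' : (X d)⁻¹ * X d' ∈ W := by
      have hA0 : (A d : 𝓞 E) ≠ 0 := hA d
      have hB0 : (B d' : 𝓞 E) ≠ 0 := hB d'
      have hA0' : algebraMap (𝓞 E) E (A d) ≠ 0 := by
        rwa [Ne, RingOfIntegers.coe_eq_zero_iff]
      have hB0' : algebraMap (𝓞 E) E (B d') ≠ 0 := by
        rwa [Ne, RingOfIntegers.coe_eq_zero_iff]
      apply hN _ (algebraMap (𝓞 E) E γ / (algebraMap (𝓞 E) E (A d) * algebraMap (𝓞 E) E (B d')))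
      · refine ⟨γ, A d * B d', (h2 d).mul_left (h3 d'), ?_⟩
        rw [map_mul]
        field_simp
      · have hg := congrArg (algebraMap (𝓞 E) E) hγ
        rw [map_sub, map_mul, map_mul, map_mul, map_pow, map_natCast, ← h4 d, ← h4 d'] at hg
        rw [← h4 d] at hA0' ⊢
        push_cast
        have := (X d).ne_zero
        have hB0'' : algebraMap (𝓞 E) E (B d) ≠ 0 := by
          intro h0
          rw [h0, mul_zero] at hA0'
          exact hA0' rfl
        field_simp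
        linear_combination hg
    rw [QuotientGroup.eq]
    refine ⟨⟨_, hW'⟩, ?_⟩
    apply Subtype.ext
    rw [delta_coe]
    show toPrincipalIdeal (𝓞 E) E ((X d)⁻¹ * X d') = (d : G)⁻¹ * (d' : G)
    rw [map_mul, map_inv]
    conv_rhs => rw [h1 d, h1 d', ← e1]
    group
  refine Finite.of_injective (fun c : DS E f ⧸ (delta f hf W hW).range => F c.out) ?_
  intro c c' h
  have := hF _ _ h
  rwa [QuotientGroup.out_eq', QuotientGroup.out_eq'] at this

end CF3
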