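import Pool.Agent.Lib.CF3.Inv

/-!
# CF3.Ram: ramified primes are totally ramified; the level
-/

namespace CF3

open NumberField nonZeroDivisors

variable {k E : Type*} [Field k] [NumberField k] [Field E] [NumberField E] [Algebra k E]

theorem Gen3.ram {σ : E ≃ₐ[k] E} (h : Gen3 k E σ) (Q : Ideal (𝓞 E)) (hQ : Q.IsPrime)
    (hQd : Q ∣ differentIdeal (𝓞 k) (𝓞 E)) :
    (Q.comap (algebraMap (𝓞 k) (𝓞 E))).map (algebraMap (𝓞 k) (𝓞 E)) = Q ^ 3 := by
  classical
  have := h.gal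
  have hQ0 : Q ≠ ⊥ := by
    rintro rfl
    have h1 : differentIdeal (𝓞 k) (𝓞 E) = ⊥ := zero_dvd_iff.1 hQd
    exact differentIdeal_ne_bot h1
  set P := Q.comap (algebraMap (𝓞 k) (𝓞 E)) with hPdef
  have hP : P.IsPrime := hQ.comap _
  have hP0 : P ≠ ⊥ := mt Ideal.eq_bot_of_comap_eq_bot hQ0
  have hPm : P.IsMaximal := hP.isMaximal hP0
  have hQm : Q.IsMaximal := hQ.isMaximal hQ0
  have hfinP : Finite (𝓞 k ⧸ P) := Ideal.finiteQuotientOfFreeOfNeBot P hP0
  have hlies : Q.LiesOver P := ⟨rfl⟩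
  have hM0 : P.map (algebraMap (𝓞 k) (𝓞 E)) ≠ ⊥ := by
    rwa [Ne, Ideal.map_eq_bot_iff_of_injective (FaithfulSMul.algebraMap_injective _ _)]
  have hd1 : Q ∣ P.map (algebraMap (𝓞 k) (𝓞 E)) := (prime_dvd_map hP hP0 Q hQ).2 rfl
  -- Q² divides
  have hd2 : Q ^ 2 ∣ P.map (algebraMap (𝓞 k) (𝓞 E)) := by
    obtain ⟨R, hR⟩ := hd1
    by_cases hQR : Q ∣ R
    · obtain ⟨R', hR'⟩ := hQR
      exact ⟨R', by rw [hR, hR', pow_two, mul_assoc]⟩
    · exfalso
      have hcop : IsCoprime Q R := by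
        rw [Ideal.isCoprime_iff_sup_eq]
        by_contra hne
        have h2 := hQm.eq_of_le hne le_sup_left
        apply hQR
        rw [Ideal.dvd_iff_le, h2]
        exact le_sup_right
      exact not_dvd_differentIdeal_of_isCoprime (𝓞 k) (p := P) Q R hcop hR.symm hQd
  -- the ramification index
  have he : Q.ramificationIdx (𝓞 k) = (UniqueFactorizationMonoid.normalizedFactors
      (P.map (algebraMap (𝓞 k) (𝓞 E)))).count Q :=
    Ideal.IsDedekindDomain.ramificationIdx_eq_normalizedFactors_count P Q hM0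
  have he2 : 2 ≤ Q.ramificationIdx (𝓞 k) := by
    rw [he]
    have h3 := (UniqueFactorizationMonoid.dvd_iff_normalizedFactors_le_normalizedFactors
      (pow_ne_zero 2 hQ0) hM0).1 hd2
    have h4 := Multiset.count_le_of_le Q h3
    rw [UniqueFactorizationMonoid.normalizedFactors_pow, Multiset.count_nsmul,
      UniqueFactorizationMonoid.normalizedFactors_irreducible
        (Ideal.prime_of_isPrime hQ0 hQ).irreducible] at h4
    simpa using h4
  have hcard : Nat.card (E ≃ₐ[k] E) = 3 := by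
    rw [IsGalois.card_aut_eq_finrank, h.three]
  have hform := Ideal.ncard_primesOver_mul_ramificationIdxIn_mul_inertiaDegIn P (𝓞 E) (E ≃ₐ[k] E)
  rw [hcard, Ideal.ramificationIdxIn_eq_ramificationIdx P Q (E ≃ₐ[k] E)] at hform
  have he3 : Q.ramificationIdx (𝓞 k) = 3 := by
    have h5 : Q.ramificationIdx (𝓞 k) ∣ 3 :=
      ⟨(P.primesOver (𝓞 E)).ncard * P.inertiaDegIn (𝓞 E), hform.symm.trans (by ring)⟩
    rcases (Nat.dvd_prime (by norm_num)).1 h5 with h6 | h6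
    · omega
    · exact h6
  have hg : (P.primesOver (𝓞 E)).ncard = 1 := by
    rw [he3] at hform
    have h7 : (P.primesOver (𝓞 E)).ncard * P.inertiaDegIn (𝓞 E) = 1 := by
      have : 3 * ((P.primesOver (𝓞 E)).ncard * P.inertiaDegIn (𝓞 E)) = 3 * 1 := by
        rw [mul_one]; exact Eq.trans (by ring) hform
      exact Nat.eq_of_mul_eq_mul_left (by norm_num) this
    exact Nat.eq_one_of_mul_eq_one_right h7
  obtain ⟨R, hR⟩ := Set.ncard_eq_one.1 hg
  have hQR : Q = R := by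
    have : Q ∈ P.primesOver (𝓞 E) := ⟨hQ, hlies⟩
    rw [hR] at this
    exact this
  subst hQR
  have hfac := Ideal.map_algebraMap_eq_finsetProd_pow (R := 𝓞 E) (p := P) hP0
  rw [hfac]
  have : (P.primesOver (𝓞 E)).toFinset = {Q} := by
    ext x
    rw [Set.mem_toFinset, hR]
    simp
  rw [this, Finset.prod_singleton, he3]

variable (k E) in
/-- the level -/
theorem exists_level : ∃ f : ℕ, 0 < f ∧
    (∀ Q : Ideal (𝓞 E), Q.IsPrime → Q ∣ differentIdeal (𝓞 k) (𝓞 E) → (f : 𝓞 E) ∈ Q) ∧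
    (∀ p : ℕ, p.Prime → p ∣ f → ∃ Q : Ideal (𝓞 E), Q.IsPrime ∧ (p : 𝓞 E) ∈ Q ∧
      Q ∣ differentIdeal (𝓞 k) (𝓞 E)) := by
  refine ⟨Ideal.absNorm (differentIdeal (𝓞 k) (𝓞 E)), ?_, ?_, ?_⟩
  · rw [Nat.pos_iff_ne_zero, Ne, Ideal.absNorm_eq_zero_iff]
    exact differentIdeal_ne_bot
  · intro Q _ hQd
    exact (Ideal.dvd_iff_le.1 hQd) (Ideal.absNorm_mem _)
  · intro p hp hpd
    obtain ⟨Q, hQ, hQp, hQd⟩ := Ideal.exists_isMaximal_dvd_of_dvd_absNorm' hp _ hpd
    refine ⟨Q, hQ.isPrime, ?_, hQd⟩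
    have : (p : ℤ) ∈ Q.under ℤ := by
      rw [hQp]; exact Ideal.mem_span_singleton_self _
    have h2 : algebraMap ℤ (𝓞 E) (p : ℤ) ∈ Q := this
    simpa using h2

end CF3
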