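import Pool.Agent.Lib.CF3.Units
import Pool.Agent.Lib.CF3.Ram
import Pool.Agent.Lib.CF3.AbsT

/-!
# CF3.Final: the second inequality of class field theory for cyclic cubic extensions `E/k`,
`k` a number field with finite unit group.
-/

namespace CF3

open NumberField nonZeroDivisors

section

variable {k E : Type*} [Field k] [NumberField k] [Field E] [NumberField E] [Algebra k E]

theorem cop_map_algebraMap {f : ℕ} {a : Ideal (𝓞 k)} (h : IsCoprime a (Ideal.span {(f : 𝓞 k)})) :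
    Cop f (a.map (algebraMap (𝓞 k) (𝓞 E))) := by
  unfold Cop
  rw [Ideal.isCoprime_iff_sup_eq] at *
  have : (Ideal.span {(f : 𝓞 E)} : Ideal (𝓞 E)) =
      (Ideal.span {(f : 𝓞 k)}).map (algebraMap (𝓞 k) (𝓞 E)) := by
    rw [Ideal.map_span, Set.image_singleton, map_natCast]
  rw [this, ← Ideal.map_sup, h, Ideal.map_top]

theorem map_algebraMap_ne_bot {a : Ideal (𝓞 k)} (h : a ≠ ⊥) :
    a.map (algebraMap (𝓞 k) (𝓞 E)) ≠ ⊥ := by
  rwa [Ne, Ideal.map_eq_bot_iff_of_injective (FaithfulSMul.algebraMap_injective _ _)]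

/-- integral ideals as elements of `DS` -/
noncomputable def toDS (f : ℕ) (I : Ideal (𝓞 E)) (h0 : I ≠ ⊥) (h : Cop f I) : DS E f :=
  ⟨Units.mk0 (I : FractionalIdeal (𝓞 E)⁰ E) (by rwa [Ne, FractionalIdeal.coeIdeal_eq_zero]),
    I, 1, h0, one_ne_zero, h, isCoprime_one_left, by
      rw [Units.val_mk0, Ideal.one_eq_top, FractionalIdeal.coeIdeal_top, mul_one]⟩

theorem toDS_coe (f : ℕ) (I : Ideal (𝓞 E)) (h0 : I ≠ ⊥) (h : Cop f I) :
    (((toDS f I h0 h : DS E f) : (FractionalIdeal (𝓞 E)⁰ E)ˣ) : FractionalIdeal (𝓞 E)⁰ E) = I := rfl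

theorem toDS_mul (f : ℕ) (I J : Ideal (𝓞 E)) (h0 : I ≠ ⊥) (h : Cop f I) (h0' : J ≠ ⊥)
    (h' : Cop f J) (h0'' : I * J ≠ ⊥) (h'' : Cop f (I * J)) :
    toDS f (I * J) h0'' h'' = toDS f I h0 h * toDS f J h0' h' := by
  apply Subtype.ext
  apply Units.ext
  rw [toDS_coe, FractionalIdeal.coeIdeal_mul]
  rfl

theorem sD_toDS (σ : E ≃ₐ[k] E) (f : ℕ) (I : Ideal (𝓞 E)) (h0 : I ≠ ⊥) (h : Cop f I) :
    sD σ f (toDS f I h0 h) = toDS f (I.map (sO σ)) (map_ne_bot σ h0) (cop_map σ h) := by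
  apply Subtype.ext
  apply Units.ext
  rw [sD_coe, toDS_coe, toDS_coe, sF_coe]

theorem toDS_congr (f : ℕ) {I J : Ideal (𝓞 E)} (e : I = J) (h0 : I ≠ ⊥) (h : Cop f I)
    (h0' : J ≠ ⊥) (h' : Cop f J) : toDS f I h0 h = toDS f J h0' h' := by
  subst e; rfl

theorem delta_equiv (σ : E ≃ₐ[k] E) (f : ℕ) (hf : 0 < f) (W : Subgroup Eˣ)
    (hW : ∀ x ∈ W, (x : E) ∈ SInt E f)
    (hs : ∀ x ∈ W, Units.map ((σ : E ≃+* E) : E →* E) x ∈ W) (x : W) :
    delta f hf W hW (sW σ W hs x) = sD σ f (delta f hf W hW x) := by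
  apply Subtype.ext
  apply Units.ext
  rw [delta_coe, sD_coe, delta_coe, coe_toPrincipalIdeal, coe_toPrincipalIdeal, sF_span, sW_coe]

end

variable {k E : Type} [Field k] [NumberField k] [Field E] [NumberField E] [Algebra k E]

/-- **The second inequality** for cyclic cubic extensions of a field with finite unit group:
every level `f > 0` which is contained in all the primes dividing the different. -/
theorem second_inequality_level {σ : E ≃ₐ[k] E} (h : Gen3 k E σ) (hk : Finite (𝓞 k)ˣ) (f : ℕ)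
    (hf : 0 < f)
    (hram : ∀ Q : Ideal (𝓞 E), Q.IsPrime → Q ∣ differentIdeal (𝓞 k) (𝓞 E) → (f : 𝓞 E) ∈ Q) :
    ∃ (N : ℕ) (φ : Ideal (𝓞 k) → ZMod 3),
      (∀ a b : Ideal (𝓞 k), a ≠ ⊥ → IsCoprime a (Ideal.span {(f : 𝓞 k)}) → b ≠ ⊥ →
        IsCoprime b (Ideal.span {(f : 𝓞 k)}) → φ (a * b) = φ a + φ b) ∧
      (∀ x : 𝓞 k, x ≠ 0 → ((f ^ (N + 1) : ℕ) : 𝓞 k) ∣ x - 1 → φ (Ideal.span {x}) = 0) ∧
      (∃ a : Ideal (𝓞 k), a ≠ ⊥ ∧ IsCoprime a (Ideal.span {(f : 𝓞 k)}) ∧ φ a ≠ 0) ∧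
      (∀ P : Ideal (𝓞 k), P.IsPrime → P ≠ ⊥ → IsCoprime P (Ideal.span {(f : 𝓞 k)}) →
        ∀ Q : Ideal (𝓞 E), Q.IsPrime → Q.comap (algebraMap (𝓞 k) (𝓞 E)) = P →
          Q.map (sO σ) ≠ Q → φ P = 0) := by
  classical
  obtain ⟨W, N, hW, hs, hH1, hN⟩ := h.exists_W f hf
  have hfin := finite_quot f hf W hW N hN
  obtain ⟨Uf, hUf, hfix, hU⟩ := h.units_ineq hk f hf W N hW hs hN
  obtain ⟨χ, hχmul, hχδ, hχN, d0, hd0, hχd0⟩ := abstractChar (sD σ f) (sW σ W hs)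
    (delta f hf W hW) (sD_sD_sD σ h.s3 f) (by
      intro x
      apply Subtype.ext
      apply Units.ext
      exact h.s3 _) (delta_equiv σ f hf W hW hs) hfin (by
      intro x hx
      obtain ⟨y, hy, hyx⟩ := hH1 x.1 x.2 (by
        have := congrArg (fun z : W => ((z : Eˣ) : E)) hx
        exact this)
      refine ⟨⟨y, hy⟩, ?_⟩
      apply Subtype.ext
      apply Units.ext
      exact hyx.symm) Uf hUf hfix hU
  -- the map J
  let good : Ideal (𝓞 k) → Prop := fun a => a ≠ ⊥ ∧ IsCoprime a (Ideal.span {(f : 𝓞 k)})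
  let J : (a : Ideal (𝓞 k)) → good a → DS E f := fun a ha =>
    toDS f (a.map (algebraMap (𝓞 k) (𝓞 E))) (map_algebraMap_ne_bot ha.1)
      (cop_map_algebraMap ha.2)
  have hJfix : ∀ a ha, sD σ f (J a ha) = J a ha := by
    intro a ha
    show sD σ f (toDS f _ _ _) = toDS f _ _ _
    rw [sD_toDS]
    exact toDS_congr f (map_algebraMap_map σ a) _ _ _ _
  let φ : Ideal (𝓞 k) → ZMod 3 := fun a => if ha : good a then χ (J a ha) else 0
  have hφ : ∀ a (ha : good a), φ a = χ (J a ha) := fun a ha => dif_pos ha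
  refine ⟨N, φ, ?_, ?_, ?_, ?_⟩
  · intro a b ha hac hb hbc
    have hga : good a := ⟨ha, hac⟩
    have hgb : good b := ⟨hb, hbc⟩
    have hgab : good (a * b) := ⟨mul_ne_zero ha hb, hac.mul_left hbc⟩
    rw [hφ _ hga, hφ _ hgb, hφ _ hgab, ← hχmul _ _ (hJfix a hga) (hJfix b hgb)]
    congr 1
    apply Subtype.ext
    apply Units.ext
    show ((((a * b).map (algebraMap (𝓞 k) (𝓞 E)) : Ideal (𝓞 E))) : FractionalIdeal (𝓞 E)⁰ E) =
      ((a.map (algebraMap (𝓞 k) (𝓞 E)) : Ideal (𝓞 E)) : FractionalIdeal (𝓞 E)⁰ E) *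
        ((b.map (algebraMap (𝓞 k) (𝓞 E)) : Ideal (𝓞 E)) : FractionalIdeal (𝓞 E)⁰ E)
    rw [Ideal.map_mul, FractionalIdeal.coeIdeal_mul]
  · intro x hx0 hdvd
    obtain ⟨y, hy⟩ := hdvd
    have hxc : IsCoprime x (f : 𝓞 k) := by
      refine ⟨1, -((f : 𝓞 k) ^ N * y), ?_⟩
      have : x = 1 + (f : 𝓞 k) ^ (N + 1) * y := by
        have h1 : x = 1 + (x - 1) := by ring
        rw [h1, hy]
        push_cast
        ring
      rw [this]
      ring
    have hg : good (Ideal.span {x}) := by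
      refine ⟨?_, ?_⟩
      · rwa [Ne, Ideal.span_singleton_eq_bot]
      · rwa [Ideal.isCoprime_span_singleton_iff]
    rw [hφ _ hg]
    have hxE : algebraMap k E (algebraMap (𝓞 k) k x) ≠ 0 := by
      intro h0
      have h1 := (algebraMap k E).injective (h0.trans (map_zero _).symm)
      exact hx0 (RingOfIntegers.coe_eq_zero_iff.1 h1)
    have hw : Units.mk0 (algebraMap k E (algebraMap (𝓞 k) k x)) hxE ∈ W := by
      apply hN _ ((f : E) * algebraMap (𝓞 E) E (algebraMap (𝓞 k) (𝓞 E) y))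
      · exact (SInt E f).mul_mem (natCast_mem _ f) (SInt_int f _)
      · rw [Units.val_mk0]
        have e1 : algebraMap (𝓞 E) E (algebraMap (𝓞 k) (𝓞 E) y) =
            algebraMap k E (algebraMap (𝓞 k) k y) := rfl
        rw [e1]
        have e2 := congrArg (fun z => algebraMap k E (algebraMap (𝓞 k) k z)) hy
        simp only [map_sub, map_one, map_mul, map_natCast] at e2
        rw [e2]
        push_cast
        ring
    have := hχδ ⟨_, hw⟩ (by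
      apply Subtype.ext
      apply Units.ext
      exact σ.commutes _)
    rw [← this]
    congr 1
    apply Subtype.ext
    apply Units.ext
    rw [delta_coe, coe_toPrincipalIdeal, Units.val_mk0]
    show (((Ideal.span {x}).map (algebraMap (𝓞 k) (𝓞 E)) : Ideal (𝓞 E)) :
      FractionalIdeal (𝓞 E)⁰ E) = _
    rw [Ideal.map_span, Set.image_singleton, FractionalIdeal.coeIdeal_span_singleton]
    rfl
  · -- nontriviality
    obtain ⟨I, J0, hI0, hJ0, hIc, hJc, hd⟩ := d0.2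
    set J1 : Ideal (𝓞 E) := J0.map (sO σ) with hJ1
    set J2 : Ideal (𝓞 E) := J1.map (sO σ) with hJ2
    have hJ3 : J2.map (sO σ) = J0 := map_map_map σ h.s3 J0
    have hJ10 : J1 ≠ ⊥ := map_ne_bot σ hJ0
    have hJ20 : J2 ≠ ⊥ := map_ne_bot σ hJ10
    have hJ1c : Cop f J1 := cop_map σ hJc
    have hJ2c : Cop f J2 := cop_map σ hJ1c
    have hJJ0 : J0 * J1 * J2 ≠ ⊥ := mul_ne_zero (mul_ne_zero hJ0 hJ10) hJ20
    have hII0 : I * J1 * J2 ≠ ⊥ := mul_ne_zero (mul_ne_zero hI0 hJ10) hJ20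
    have hJJc : Cop f (J0 * J1 * J2) := (hJc.mul_left hJ1c).mul_left hJ2c
    have hIIc : Cop f (I * J1 * J2) := (hIc.mul_left hJ1c).mul_left hJ2c
    have hJJs : (J0 * J1 * J2).map (sO σ) = J0 * J1 * J2 := by
      rw [Ideal.map_mul, Ideal.map_mul, ← hJ1, ← hJ2, hJ3]
      ring
    have hdd : d0 * toDS f (J0 * J1 * J2) hJJ0 hJJc = toDS f (I * J1 * J2) hII0 hIIc := by
      apply Subtype.ext
      apply Units.ext
      show ((d0 : (FractionalIdeal (𝓞 E)⁰ E)ˣ) : FractionalIdeal (𝓞 E)⁰ E) *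
        ((J0 * J1 * J2 : Ideal (𝓞 E)) : FractionalIdeal (𝓞 E)⁰ E) =
          ((I * J1 * J2 : Ideal (𝓞 E)) : FractionalIdeal (𝓞 E)⁰ E)
      simp only [FractionalIdeal.coeIdeal_mul]
      rw [← hd]
      ring
    have hIIs : (I * J1 * J2).map (sO σ) = I * J1 * J2 := by
      have h1 := congrArg (sD σ f) hdd
      rw [map_mul, hd0, sD_toDS, sD_toDS, toDS_congr f hJJs _ _ hJJ0 hJJc, hdd] at h1
      have h2 := congrArg (fun z : DS E f => ((z : (FractionalIdeal (𝓞 E)⁰ E)ˣ) :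
        FractionalIdeal (𝓞 E)⁰ E)) h1
      simp only [toDS_coe] at h2
      exact (FractionalIdeal.coeIdeal_injective h2).symm
    obtain ⟨b, hb0, hbc, hb⟩ := h.descent hram _ hJJ0 hJJc hJJs
    obtain ⟨a, ha0, hac, ha⟩ := h.descent hram _ hII0 hIIc hIIs
    have hga : good a := ⟨ha0, hac⟩
    have hgb : good b := ⟨hb0, hbc⟩
    have hJa : J a hga = toDS f (I * J1 * J2) hII0 hIIc := toDS_congr f ha _ _ _ _
    have hJb : J b hgb = toDS f (J0 * J1 * J2) hJJ0 hJJc := toDS_congr f hb _ _ _ _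
    have hsum : φ a = χ d0 + φ b := by
      rw [hφ a hga, hφ b hgb, hJa, ← hdd, ← hJb, hχmul d0 (J b hgb) hd0 (hJfix b hgb)]
    by_cases hφa : φ a = 0
    · refine ⟨b, hb0, hbc, ?_⟩
      intro hφb
      rw [hφa, hφb, add_zero] at hsum
      exact hχd0 hsum.symm
    · exact ⟨a, ha0, hac, hφa⟩
  · intro P hP hP0 hPc Q hQ hQP hne
    have hgP : good P := ⟨hP0, hPc⟩
    have hPf : (f : 𝓞 k) ∉ P := by
      intro hf'
      rw [Ideal.isCoprime_iff_sup_eq, sup_eq_left.2 ((Ideal.span_singleton_le_iff_mem _).2 hf')] at hPc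
      exact hP.ne_top hPc
    have hdec := (h.decomp hram P hP hP0 hPf Q hQ hQP).2 hne
    have hQd : Q ∣ P.map (algebraMap (𝓞 k) (𝓞 E)) := (prime_dvd_map hP hP0 Q hQ).2 hQP
    have hQ0 : Q ≠ ⊥ := by
      rintro rfl
      exact map_algebraMap_ne_bot hP0 (zero_dvd_iff.1 hQd)
    have hQc : Cop f Q := cop_of_dvd (cop_map_algebraMap hPc) hQd
    rw [hφ P hgP, ← hχN (toDS f Q hQ0 hQc)]
    congr 1
    rw [sD_toDS, sD_toDS]
    apply Subtype.ext
    apply Units.ext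
    show ((P.map (algebraMap (𝓞 k) (𝓞 E)) : Ideal (𝓞 E)) : FractionalIdeal (𝓞 E)⁰ E) =
      (Q : FractionalIdeal (𝓞 E)⁰ E) * ((Q.map (sO σ) : Ideal (𝓞 E)) : FractionalIdeal (𝓞 E)⁰ E) *
        (((Q.map (sO σ)).map (sO σ) : Ideal (𝓞 E)) : FractionalIdeal (𝓞 E)⁰ E)
    rw [hdec, FractionalIdeal.coeIdeal_mul, FractionalIdeal.coeIdeal_mul]

theorem coprime_span_pow (f N : ℕ) (a : Ideal (𝓞 k)) :
    IsCoprime a (Ideal.span {((f ^ (N + 1) : ℕ) : 𝓞 k)}) ↔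
      IsCoprime a (Ideal.span {(f : 𝓞 k)}) := by
  have e : (Ideal.span {((f ^ (N + 1) : ℕ) : 𝓞 k)}) = (Ideal.span {(f : 𝓞 k)}) ^ (N + 1) := by
    rw [Ideal.span_singleton_pow]
    congr 2
    push_cast
    rfl
  rw [e]
  exact IsCoprime.pow_right_iff (Nat.succ_pos N)

/-- **The second inequality** for cyclic cubic extensions of a field with finite unit group,
with a level all of whose prime divisors are below ramified primes. -/
theorem second_inequality {σ : E ≃ₐ[k] E} (h : Gen3 k E σ) (hk : Finite (𝓞 k)ˣ) :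
    ∃ (f : ℕ) (φ : Ideal (𝓞 k) → ZMod 3), 0 < f ∧
      (∀ a b : Ideal (𝓞 k), a ≠ ⊥ → IsCoprime a (Ideal.span {(f : 𝓞 k)}) → b ≠ ⊥ →
        IsCoprime b (Ideal.span {(f : 𝓞 k)}) → φ (a * b) = φ a + φ b) ∧
      (∀ x : 𝓞 k, x ≠ 0 → (f : 𝓞 k) ∣ x - 1 → φ (Ideal.span {x}) = 0) ∧
      (∃ a : Ideal (𝓞 k), a ≠ ⊥ ∧ IsCoprime a (Ideal.span {(f : 𝓞 k)}) ∧ φ a ≠ 0) ∧
      (∀ P : Ideal (𝓞 k), P.IsPrime → P ≠ ⊥ → IsCoprime P (Ideal.span {(f : 𝓞 k)}) →
        ∀ Q : Ideal (𝓞 E), Q.IsPrime → Q.comap (algebraMap (𝓞 k) (𝓞 E)) = P →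
          Q.map (sO σ) ≠ Q → φ P = 0) ∧
      (∀ p : ℕ, p.Prime → p ∣ f → ∃ Q : Ideal (𝓞 E), Q.IsPrime ∧ (p : 𝓞 E) ∈ Q ∧
        (Q.comap (algebraMap (𝓞 k) (𝓞 E))).map (algebraMap (𝓞 k) (𝓞 E)) = Q ^ 3) := by
  obtain ⟨f, hf, hram, hlev⟩ := exists_level k E
  obtain ⟨N, φ, h1, h2, h3, h4⟩ := second_inequality_level h hk f hf hram
  refine ⟨f ^ (N + 1), φ, pow_pos hf _, ?_, h2, ?_, ?_, ?_⟩
  · intro a b ha hac hb hbc
    rw [coprime_span_pow] at hac hbc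
    exact h1 a b ha hac hb hbc
  · obtain ⟨a, ha, hac, hφ⟩ := h3
    exact ⟨a, ha, (coprime_span_pow f N a).2 hac, hφ⟩
  · intro P hP hP0 hPc
    rw [coprime_span_pow] at hPc
    exact h4 P hP hP0 hPc
  · intro p hp hpd
    obtain ⟨Q, hQ, hpQ, hQd⟩ := hlev p hp (hp.dvd_of_dvd_pow hpd)
    exact ⟨Q, hQ, hpQ, h.ram Q hQ hQd⟩

end CF3
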