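import Pool.Agent.Lib.CF3.Princ

/-!
# CF3.Inv: invariant ideals prime to f come from k; decomposition of primes
-/

namespace CF3

open NumberField nonZeroDivisors

variable {k E : Type*} [Field k] [NumberField k] [Field E] [NumberField E] [Algebra k E]

/-- the hypothesis on `σ` -/
structure Gen3 (k E : Type*) [Field k] [Field E] [Algebra k E] (σ : E ≃ₐ[k] E) : Prop where
  gal : IsGalois k E
  three : Module.finrank k E = 3
  ne : σ ≠ 1

theorem Gen3.all {σ : E ≃ₐ[k] E} (h : Gen3 k E σ) (τ : E ≃ₐ[k] E) :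
    τ = 1 ∨ τ = σ ∨ τ = σ * σ := by
  have := h.gal
  have hcard : Nat.card (E ≃ₐ[k] E) = 3 := by
    rw [IsGalois.card_aut_eq_finrank, h.three]
  have hp : Fact (Nat.Prime 3) := ⟨by norm_num⟩
  have hord : orderOf σ = 3 := orderOf_eq_prime_iff.2 ⟨by rw [← hcard]; exact pow_card_eq_one', h.ne⟩
  have hz : τ ∈ Subgroup.zpowers σ := by
    have : Subgroup.zpowers σ = ⊤ := by
      apply Subgroup.eq_top_of_card_eq
      rw [Nat.card_zpowers, hord, hcard]
    rw [this]; trivial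
  have hfo : IsOfFinOrder σ := orderOf_pos_iff.1 (by rw [hord]; norm_num)
  rw [← hfo.mem_powers_iff_mem_zpowers, Submonoid.mem_powers_iff] at hz
  obtain ⟨n, hn⟩ := hz
  have h3 : σ ^ 3 = 1 := by rw [← hord]; exact pow_orderOf_eq_one σ
  have hn' : σ ^ (n % 3) = τ := by
    rw [← hn]
    conv_rhs => rw [← Nat.div_add_mod n 3, pow_add, pow_mul, h3, one_pow, one_mul]
  have : n % 3 < 3 := Nat.mod_lt _ (by norm_num)
  interval_cases (n % 3)
  · left; rw [← hn', pow_zero]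
  · right; left; rw [← hn', pow_one]
  · right; right; rw [← hn', pow_two]

theorem Gen3.s3 {σ : E ≃ₐ[k] E} (h : Gen3 k E σ) (x : E) : σ (σ (σ x)) = x := by
  have := h.gal
  have hcard : Nat.card (E ≃ₐ[k] E) = 3 := by
    rw [IsGalois.card_aut_eq_finrank, h.three]
  have h3 : σ ^ 3 = 1 := by rw [← hcard]; exact pow_card_eq_one'
  have := congrArg (fun g : E ≃ₐ[k] E => g x) h3
  simpa [pow_succ] using this

theorem mem_map_sO (σ : E ≃ₐ[k] E) (I : Ideal (𝓞 E)) (x : 𝓞 E) :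
    x ∈ I.map (sO σ) ↔ ∃ y ∈ I, sO σ y = x := Ideal.mem_map_of_equiv (sO σ) x

/-- transitivity -/
theorem Gen3.trans {σ : E ≃ₐ[k] E} (h : Gen3 k E σ) (P : Ideal (𝓞 k)) (Q Q' : Ideal (𝓞 E))
    (hQ : Q.IsPrime) (hQ' : Q'.IsPrime) (h1 : Q.comap (algebraMap (𝓞 k) (𝓞 E)) = P)
    (h2 : Q'.comap (algebraMap (𝓞 k) (𝓞 E)) = P) :
    Q' = Q ∨ Q' = Q.map (sO σ) ∨ Q' = (Q.map (sO σ)).map (sO σ) := by
  have := h.gal
  have l1 : Q.LiesOver P := ⟨h1.symm⟩
  have l2 : Q'.LiesOver P := ⟨h2.symm⟩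
  open Pointwise in
  obtain ⟨τ, hτ⟩ := Ideal.exists_smul_eq_of_isGaloisGroup P Q Q' (E ≃ₐ[k] E)
  have hτ' : ∀ x : 𝓞 E, x ∈ Q' ↔ ∃ y ∈ Q, sO τ y = x := by
    intro x
    rw [← hτ]
    open Pointwise in
    rw [Ideal.mem_pointwise_smul_iff_inv_smul_mem]
    constructor
    · intro hx
      refine ⟨_, hx, ?_⟩
      apply RingOfIntegers.coe_injective
      show τ (τ⁻¹ (x : E)) = x
      exact AlgEquiv.apply_symm_apply τ _
    · rintro ⟨y, hy, rfl⟩
      have : τ⁻¹ • (sO τ y) = y := by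
        apply RingOfIntegers.coe_injective
        show τ⁻¹ (τ (y : E)) = y
        exact AlgEquiv.symm_apply_apply τ _
      rwa [this]
  rcases h.all τ with rfl | rfl | rfl
  · left
    ext x
    rw [hτ']
    constructor
    · rintro ⟨y, hy, rfl⟩
      exact hy
    · intro hx
      exact ⟨x, hx, rfl⟩
  · right; left
    ext x
    rw [hτ', mem_map_sO]
  · right; right
    ext x
    rw [hτ', mem_map_sO]
    constructor
    · rintro ⟨y, hy, rfl⟩
      exact ⟨sO σ y, Ideal.mem_map_of_mem _ hy, rfl⟩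
    · rintro ⟨z, hz, rfl⟩
      obtain ⟨y, hy, rfl⟩ := (mem_map_sO _ _ _).1 hz
      exact ⟨y, hy, rfl⟩

theorem comap_map_sO (σ : E ≃ₐ[k] E) (Q : Ideal (𝓞 E)) :
    (Q.map (sO σ)).comap (algebraMap (𝓞 k) (𝓞 E)) = Q.comap (algebraMap (𝓞 k) (𝓞 E)) := by
  have hfix : ∀ x : 𝓞 k, sO σ (algebraMap (𝓞 k) (𝓞 E) x) = algebraMap (𝓞 k) (𝓞 E) x := by
    intro x
    apply RingOfIntegers.coe_injective
    exact σ.commutes (x : k)
  ext x
  rw [Ideal.mem_comap, Ideal.mem_comap, mem_map_sO]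
  constructor
  · rintro ⟨y, hy, e⟩
    have : y = algebraMap (𝓞 k) (𝓞 E) x := by
      apply (sO σ).injective
      rw [e, hfix]
    rwa [← this]
  · intro hx
    exact ⟨_, hx, hfix x⟩

theorem map_prime (σ : E ≃ₐ[k] E) {Q : Ideal (𝓞 E)} (hQ : Q.IsPrime) : (Q.map (sO σ)).IsPrime :=
  Ideal.map_isPrime_of_equiv (sO σ)

theorem map_algebraMap_map (σ : E ≃ₐ[k] E) (a : Ideal (𝓞 k)) :
    (a.map (algebraMap (𝓞 k) (𝓞 E))).map (sO σ) = a.map (algebraMap (𝓞 k) (𝓞 E)) := by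
  have hfix : ∀ x : 𝓞 k, sO σ (algebraMap (𝓞 k) (𝓞 E) x) = algebraMap (𝓞 k) (𝓞 E) x := by
    intro x
    apply RingOfIntegers.coe_injective
    exact σ.commutes (x : k)
  have : ((sO σ : 𝓞 E ≃+* 𝓞 E) : 𝓞 E →+* 𝓞 E).comp (algebraMap (𝓞 k) (𝓞 E)) =
      algebraMap (𝓞 k) (𝓞 E) := RingHom.ext hfix
  have h2 : (a.map (algebraMap (𝓞 k) (𝓞 E))).map (sO σ) =
      (a.map (algebraMap (𝓞 k) (𝓞 E))).map ((sO σ : 𝓞 E ≃+* 𝓞 E) : 𝓞 E →+* 𝓞 E) := rfl
  rw [h2, Ideal.map_map, this]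

/-- primes prime to `f` are unramified -/
theorem sq_not_dvd {f : ℕ} (hram : ∀ Q : Ideal (𝓞 E), Q.IsPrime →
    Q ∣ differentIdeal (𝓞 k) (𝓞 E) → (f : 𝓞 E) ∈ Q) (Q : Ideal (𝓞 E)) (hQ : Q.IsPrime)
    (hQ0 : Q ≠ ⊥) (hf : (f : 𝓞 E) ∉ Q) :
    ¬ Q ^ 2 ∣ (Q.comap (algebraMap (𝓞 k) (𝓞 E))).map (algebraMap (𝓞 k) (𝓞 E)) := by
  intro h
  have hP : (Q.comap (algebraMap (𝓞 k) (𝓞 E))).IsPrime := hQ.comap _
  have hP0 : Q.comap (algebraMap (𝓞 k) (𝓞 E)) ≠ ⊥ := mt Ideal.eq_bot_of_comap_eq_bot hQ0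
  have hPm : (Q.comap (algebraMap (𝓞 k) (𝓞 E))).IsMaximal := hP.isMaximal hP0
  have h2 := pow_sub_one_dvd_differentIdeal (𝓞 k) Q 2 hP0 h
  rw [show 2 - 1 = 1 by rfl, pow_one] at h2
  exact hf (hram Q hQ h2)

theorem eq_prod_of {M : Ideal (𝓞 E)} (hM : M ≠ ⊥) (T : Finset (Ideal (𝓞 E)))
    (h1 : ∀ R ∈ T, R.IsPrime) (h0 : ∀ R ∈ T, R ≠ ⊥) (h2 : ∀ R ∈ T, R ∣ M)
    (h3 : ∀ R ∈ T, ¬ R ^ 2 ∣ M)
    (h4 : ∀ R : Ideal (𝓞 E), R.IsPrime → R ∣ M → R ∈ T) : M = ∏ R ∈ T, R := by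
  obtain ⟨M', hM'⟩ := Finset.prod_primes_dvd M
    (fun R hR => Ideal.prime_of_isPrime (h0 R hR) (h1 R hR)) h2
  have hM'1 : M' = ⊤ := by
    by_contra hne
    obtain ⟨R, hR, hle⟩ := Ideal.exists_le_maximal M' hne
    have hRd : R ∣ M' := Ideal.dvd_iff_le.2 hle
    have hRT : R ∈ T := h4 R hR.isPrime (hRd.trans ⟨_, by rw [hM', mul_comm]⟩)
    apply h3 R hRT
    rw [hM', pow_two]
    exact mul_dvd_mul (Finset.dvd_prod_of_mem _ hRT) hRd
  rw [hM', hM'1, Ideal.mul_top]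

theorem prime_dvd_map {P : Ideal (𝓞 k)} (hP : P.IsPrime) (hP0 : P ≠ ⊥) (R : Ideal (𝓞 E))
    (hR : R.IsPrime) : R ∣ P.map (algebraMap (𝓞 k) (𝓞 E)) ↔
      R.comap (algebraMap (𝓞 k) (𝓞 E)) = P := by
  have := hP.isMaximal hP0
  rw [← Ideal.liesOver_iff_dvd_map hR.ne_top]
  constructor
  · intro h; exact h.over.symm
  · intro h; exact ⟨h.symm⟩

/-- decomposition of the primes prime to `f` -/
theorem Gen3.decomp {σ : E ≃ₐ[k] E} (h : Gen3 k E σ) {f : ℕ}
    (hram : ∀ Q : Ideal (𝓞 E), Q.IsPrime → Q ∣ differentIdeal (𝓞 k) (𝓞 E) → (f : 𝓞 E) ∈ Q)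
    (P : Ideal (𝓞 k)) (hP : P.IsPrime) (hP0 : P ≠ ⊥) (hPf : (f : 𝓞 k) ∉ P) (Q : Ideal (𝓞 E))
    (hQ : Q.IsPrime) (hQP : Q.comap (algebraMap (𝓞 k) (𝓞 E)) = P) :
    (Q.map (sO σ) = Q → P.map (algebraMap (𝓞 k) (𝓞 E)) = Q) ∧
    (Q.map (sO σ) ≠ Q → P.map (algebraMap (𝓞 k) (𝓞 E)) =
      Q * Q.map (sO σ) * (Q.map (sO σ)).map (sO σ)) := by
  classical
  have hM0 : P.map (algebraMap (𝓞 k) (𝓞 E)) ≠ ⊥ := by
    rwa [Ne, Ideal.map_eq_bot_iff_of_injective (FaithfulSMul.algebraMap_injective _ _)]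
  have hmem : ∀ R : Ideal (𝓞 E), R.comap (algebraMap (𝓞 k) (𝓞 E)) = P → R ≠ ⊥ ∧
      (f : 𝓞 E) ∉ R := by
    intro R hR
    constructor
    · rintro rfl
      apply hP0
      rw [← hR]
      exact (RingHom.injective_iff_ker_eq_bot (algebraMap (𝓞 k) (𝓞 E))).1
        (FaithfulSMul.algebraMap_injective _ _)
    · intro hf
      apply hPf
      rw [← hR, Ideal.mem_comap, map_natCast]
      exact hf
  have key : ∀ T : Finset (Ideal (𝓞 E)), (∀ R ∈ T, R.IsPrime) →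
      (∀ R ∈ T, R.comap (algebraMap (𝓞 k) (𝓞 E)) = P) →
      (∀ R : Ideal (𝓞 E), R.IsPrime → R.comap (algebraMap (𝓞 k) (𝓞 E)) = P → R ∈ T) →
      P.map (algebraMap (𝓞 k) (𝓞 E)) = ∏ R ∈ T, R := by
    intro T h1 h2 h3
    refine eq_prod_of hM0 T h1 (fun R hR => (hmem R (h2 R hR)).1)
      (fun R hR => (prime_dvd_map hP hP0 R (h1 R hR)).2 (h2 R hR)) ?_
      (fun R hR hd => h3 R hR ((prime_dvd_map hP hP0 R hR).1 hd))
    intro R hR
    have := sq_not_dvd hram R (h1 R hR) (hmem R (h2 R hR)).1 (hmem R (h2 R hR)).2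
    rwa [h2 R hR] at this
  have hQ1 : (Q.map (sO σ)).IsPrime := map_prime σ hQ
  have hQ2 : ((Q.map (sO σ)).map (sO σ)).IsPrime := map_prime σ hQ1
  have hc1 : (Q.map (sO σ)).comap (algebraMap (𝓞 k) (𝓞 E)) = P := by rw [comap_map_sO, hQP]
  have hc2 : ((Q.map (sO σ)).map (sO σ)).comap (algebraMap (𝓞 k) (𝓞 E)) = P := by
    rw [comap_map_sO, hc1]
  constructor
  · intro he
    have := key {Q} (by simpa using hQ) (by simpa using hQP) (by
      intro R hR hRP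
      rcases h.trans P Q R hQ hR hQP hRP with rfl | rfl | rfl
      · simp
      · simp [he]
      · simp [he])
    simpa using this
  · intro hne
    have h12 : (Q.map (sO σ)).map (sO σ) ≠ Q := by
      intro he
      apply hne
      have h3 := map_map_map σ h.s3 Q
      rw [he] at h3
      exact h3
    have h23 : (Q.map (sO σ)).map (sO σ) ≠ Q.map (sO σ) := by
      intro he
      apply h12
      have h3 := map_map_map σ h.s3 Q
      rw [he] at h3
      rw [he] at h3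
      rw [he, h3]
    have := key {Q, Q.map (sO σ), (Q.map (sO σ)).map (sO σ)} (by
      intro R hR
      simp only [Finset.mem_insert, Finset.mem_singleton] at hR
      rcases hR with rfl | rfl | rfl
      · exact hQ
      · exact hQ1
      · exact hQ2) (by
      intro R hR
      simp only [Finset.mem_insert, Finset.mem_singleton] at hR
      rcases hR with rfl | rfl | rfl
      · exact hQP
      · exact hc1
      · exact hc2) (by
      intro R hR hRP
      simp only [Finset.mem_insert, Finset.mem_singleton]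
      exact h.trans P Q R hQ hR hQP hRP)
    rw [this, Finset.prod_insert, Finset.prod_insert, Finset.prod_singleton, mul_assoc]
    · simp only [Finset.mem_singleton]; exact h23.symm
    · simp only [Finset.mem_insert, Finset.mem_singleton, not_or]
      exact ⟨hne.symm, h12.symm⟩

theorem cop_of_dvd {f : ℕ} {I J : Ideal (𝓞 E)} (h : Cop f I) (hJ : J ∣ I) : Cop f J := by
  unfold Cop at *
  exact h.of_isCoprime_of_dvd_left hJ

/-- **invariant ideals prime to `f` come from `k`** -/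
theorem Gen3.descent {σ : E ≃ₐ[k] E} (h : Gen3 k E σ) {f : ℕ}
    (hram : ∀ Q : Ideal (𝓞 E), Q.IsPrime → Q ∣ differentIdeal (𝓞 k) (𝓞 E) → (f : 𝓞 E) ∈ Q)
    (I : Ideal (𝓞 E)) (hI : I ≠ ⊥) (hIf : Cop f I) (hs : I.map (sO σ) = I) :
    ∃ a : Ideal (𝓞 k), a ≠ ⊥ ∧ IsCoprime a (Ideal.span {(f : 𝓞 k)}) ∧
      a.map (algebraMap (𝓞 k) (𝓞 E)) = I := by
  classical
  induction hn : Ideal.absNorm I using Nat.strong_induction_on generalizing I with
  | _ n ih =>
  subst hn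
  by_cases hI1 : I = ⊤
  · exact ⟨1, one_ne_zero, isCoprime_one_left, by
      rw [hI1, Ideal.one_eq_top, Ideal.map_top]⟩
  obtain ⟨Q, hQ, hle⟩ := Ideal.exists_le_maximal I hI1
  have hQd : Q ∣ I := Ideal.dvd_iff_le.2 hle
  have hQp := hQ.isPrime
  have hQ0 : Q ≠ ⊥ := by
    rintro rfl
    exact hI (le_bot_iff.1 hle)
  have hQf : (f : 𝓞 E) ∉ Q := by
    intro hf
    have h1 : Cop f Q := cop_of_dvd hIf hQd
    unfold Cop at h1
    rw [Ideal.isCoprime_iff_sup_eq, sup_eq_left.2 ((Ideal.span_singleton_le_iff_mem _).2 hf)] at h1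
    exact hQ.ne_top h1
  set P := Q.comap (algebraMap (𝓞 k) (𝓞 E)) with hPdef
  have hP : P.IsPrime := hQp.comap _
  have hP0 : P ≠ ⊥ := mt Ideal.eq_bot_of_comap_eq_bot hQ0
  have hPf : (f : 𝓞 k) ∉ P := by
    intro hf
    apply hQf
    have := (Ideal.mem_comap.1 hf)
    rwa [map_natCast] at this
  have hPcop : IsCoprime P (Ideal.span {(f : 𝓞 k)}) := by
    rw [Ideal.isCoprime_iff_sup_eq]
    have hPm := hP.isMaximal hP0
    by_contra hne
    have := hPm.eq_of_le hne le_sup_left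
    apply hPf
    rw [this]
    exact Ideal.mem_sup_right (Ideal.mem_span_singleton_self _)
  have hMd : P.map (algebraMap (𝓞 k) (𝓞 E)) ∣ I := by
    obtain ⟨d1, d2⟩ := h.decomp hram P hP hP0 hPf Q hQp rfl
    by_cases he : Q.map (sO σ) = Q
    · rw [d1 he]; exact hQd
    · rw [d2 he]
      have hs1 : Q.map (sO σ) ∣ I := by
        rw [Ideal.dvd_iff_le]
        rw [← hs]
        exact Ideal.map_mono hle
      have hs2 : (Q.map (sO σ)).map (sO σ) ∣ I := by
        rw [Ideal.dvd_iff_le]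
        rw [← hs, ← hs]
        exact Ideal.map_mono (Ideal.map_mono hle)
      have hQ1 : (Q.map (sO σ)).IsPrime := map_prime σ hQp
      have hQ2 : ((Q.map (sO σ)).map (sO σ)).IsPrime := map_prime σ hQ1
      have h12 : (Q.map (sO σ)).map (sO σ) ≠ Q := by
        intro he'
        apply he
        have h3 := map_map_map σ h.s3 Q
        rw [he'] at h3
        exact h3
      have h23 : (Q.map (sO σ)).map (sO σ) ≠ Q.map (sO σ) := by
        intro he'
        apply h12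
        have h3 := map_map_map σ h.s3 Q
        rw [he'] at h3
        rw [he'] at h3
        rw [he', h3]
      have h0 : ∀ J : Ideal (𝓞 E), J ∣ I → J ≠ ⊥ := by
        rintro _ hJ rfl
        exact hI (zero_dvd_iff.1 hJ)
      have := Finset.prod_primes_dvd (s := {Q, Q.map (sO σ), (Q.map (sO σ)).map (sO σ)}) I (by
        intro R hR
        simp only [Finset.mem_insert, Finset.mem_singleton] at hR
        rcases hR with rfl | rfl | rfl
        · exact Ideal.prime_of_isPrime hQ0 hQp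
        · exact Ideal.prime_of_isPrime (h0 _ hs1) hQ1
        · exact Ideal.prime_of_isPrime (h0 _ hs2) hQ2) (by
        intro R hR
        simp only [Finset.mem_insert, Finset.mem_singleton] at hR
        rcases hR with rfl | rfl | rfl
        · exact hQd
        · exact hs1
        · exact hs2)
      rw [Finset.prod_insert, Finset.prod_insert, Finset.prod_singleton, ← mul_assoc] at this
      · exact this
      · simp only [Finset.mem_singleton]; exact h23.symm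
      · simp only [Finset.mem_insert, Finset.mem_singleton, not_or]
        exact ⟨Ne.symm he, h12.symm⟩
  obtain ⟨I', hI'⟩ := hMd
  have hM0 : P.map (algebraMap (𝓞 k) (𝓞 E)) ≠ ⊥ := by
    rwa [Ne, Ideal.map_eq_bot_iff_of_injective (FaithfulSMul.algebraMap_injective _ _)]
  have hI'0 : I' ≠ ⊥ := by
    rintro rfl
    apply hI
    rw [hI', Ideal.mul_bot]
  have hs' : I'.map (sO σ) = I' := by
    have e1 : P.map (algebraMap (𝓞 k) (𝓞 E)) * I'.map (sO σ) =
        P.map (algebraMap (𝓞 k) (𝓞 E)) * I' := by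
      have := hs
      rw [hI', Ideal.map_mul, map_algebraMap_map] at this
      exact this
    exact mul_left_cancel₀ hM0 e1
  have hlt : Ideal.absNorm I' < Ideal.absNorm I := by
    rw [hI', map_mul]
    have h1 : 1 < Ideal.absNorm (P.map (algebraMap (𝓞 k) (𝓞 E))) := by
      have h2 : Ideal.absNorm (P.map (algebraMap (𝓞 k) (𝓞 E))) ≠ 1 := by
        rw [Ne, Ideal.absNorm_eq_one_iff]
        intro ht
        have : (P.map (algebraMap (𝓞 k) (𝓞 E))) ≤ Q := Ideal.map_comap_le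
        rw [ht] at this
        exact hQ.ne_top (top_le_iff.1 this)
      have h3 : Ideal.absNorm (P.map (algebraMap (𝓞 k) (𝓞 E))) ≠ 0 := by
        rwa [Ne, Ideal.absNorm_eq_zero_iff]
      omega
    have h4 : 0 < Ideal.absNorm I' := by
      rw [Nat.pos_iff_ne_zero, Ne, Ideal.absNorm_eq_zero_iff]; exact hI'0
    nlinarith
  obtain ⟨a, ha0, hac, ha⟩ := ih _ hlt I' hI'0 (cop_of_dvd hIf ⟨_, by rw [hI', mul_comm]⟩) hs' rfl
  exact ⟨P * a, mul_ne_zero hP0 ha0, hPcop.mul_left hac, by rw [Ideal.map_mul, ha, ← hI']⟩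

end CF3
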