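import Pool.Agent.Lib.CF3.Inv
import Pool.Agent.Lib.CF3.AbsK

/-!
# CF3.NBex: existence of the group W
-/

namespace CF3

open NumberField nonZeroDivisors

variable {k E : Type*} [Field k] [NumberField k] [Field E] [NumberField E] [Algebra k E]

theorem natCast_coprime {n f : ℕ} (h : Nat.Coprime n f) : IsCoprime (n : 𝓞 E) (f : 𝓞 E) := by
  have h1 : IsCoprime (n : ℤ) (f : ℤ) := Nat.isCoprime_iff_coprime.2 h
  have h2 := h1.map (Int.castRingHom (𝓞 E))
  simpa using h2

theorem den_aux (f : ℕ) (n : ℕ) (hn : 0 < n) : ∀ (y : E) (α : 𝓞 E),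
    y * (n : E) = algebraMap (𝓞 E) E α → ∃ c : ℕ, (f : E) ^ c * y ∈ SInt E f := by
  induction n using Nat.strong_induction_on with
  | _ n ih =>
  intro y α hy
  by_cases hc : Nat.Coprime n f
  · refine ⟨0, α, (n : 𝓞 E), natCast_coprime hc, ?_⟩
    rw [pow_zero, one_mul, map_natCast]
    exact hy
  · obtain ⟨n', hn'⟩ := Nat.gcd_dvd_left n f
    obtain ⟨f', hf'⟩ := Nat.gcd_dvd_right n f
    have hg1 : Nat.gcd n f ≠ 1 := hc
    have hg0 : Nat.gcd n f ≠ 0 := by
      intro h0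
      rw [h0, zero_mul] at hn'
      omega
    have hn'0 : 0 < n' := by
      rcases Nat.eq_zero_or_pos n' with h | h
      · rw [h, mul_zero] at hn'; omega
      · exact h
    have hlt : n' < n := by
      have : 2 ≤ Nat.gcd n f := by omega
      calc n' < 2 * n' := by omega
        _ ≤ Nat.gcd n f * n' := Nat.mul_le_mul_right _ this
        _ = n := hn'.symm
    obtain ⟨c, hc⟩ := ih n' hlt hn'0 ((f : E) * y) ((f' : 𝓞 E) * α) (by
      rw [map_mul, ← hy, map_natCast]
      have e1 : (n : E) = (Nat.gcd n f : E) * (n' : E) := by exact_mod_cast congrArg (Nat.cast : ℕ → E) hn'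
      have e2 : (f : E) = (Nat.gcd n f : E) * (f' : E) := by exact_mod_cast congrArg (Nat.cast : ℕ → E) hf'
      rw [e2]
      conv_rhs => rw [e1]
      ring)
    exact ⟨c + 1, by rw [pow_succ, mul_assoc]; exact hc⟩

theorem den (f : ℕ) (y : E) : ∃ c : ℕ, (f : E) ^ c * y ∈ SInt E f := by
  obtain ⟨α, n, hn, hy⟩ : ∃ (α : 𝓞 E) (n : ℕ), 0 < n ∧ y * (n : E) = algebraMap (𝓞 E) E α := by
    obtain ⟨⟨α, d⟩, hd⟩ := IsLocalization.surj (Algebra.algebraMapSubmonoid (𝓞 E) ℤ⁰) y
    obtain ⟨m, hm, hmd⟩ := d.2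
    have hm0 : m ≠ 0 := nonZeroDivisors.ne_zero hm
    refine ⟨(m.sign : 𝓞 E) * α, m.natAbs, Int.natAbs_pos.2 hm0, ?_⟩
    have e : (m.natAbs : E) = (m.sign : E) * (m : E) := by
      have h1 : ((m.natAbs : ℤ) : E) = ((m.sign * m : ℤ) : E) := by
        rw [Int.sign_mul_self_eq_natAbs]
      rw [Int.cast_mul, Int.cast_natCast] at h1
      exact h1
    rw [e, map_mul]
    have h2 : y * (m : E) = algebraMap (𝓞 E) E α := by
      rw [← hd]
      congr 1
      rw [← hmd]
      simp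
    rw [← h2]
    simp only [map_intCast]
    ring
  exact den_aux f n hn y α hy

theorem den_mono (f : ℕ) (y : E) (c d : ℕ) (hcd : c ≤ d) (h : (f : E) ^ c * y ∈ SInt E f) :
    (f : E) ^ d * y ∈ SInt E f := by
  obtain ⟨e, rfl⟩ := Nat.exists_eq_add_of_le hcd
  have : (f : E) ^ (c + e) * y = (f : E) ^ e * ((f : E) ^ c * y) := by ring
  rw [this]
  exact (SInt E f).mul_mem (pow_mem (natCast_mem _ f) e) h

theorem SInt_map (σ : E ≃ₐ[k] E) (f : ℕ) (x : E) (hx : x ∈ SInt E f) : σ x ∈ SInt E f := by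
  obtain ⟨α, β, h, e⟩ := hx
  refine ⟨sO σ α, sO σ β, ?_, ?_⟩
  · have := h.map ((sO σ : 𝓞 E ≃+* 𝓞 E) : 𝓞 E →+* 𝓞 E)
    rw [map_natCast] at this
    exact this
  · show σ x * σ (algebraMap (𝓞 E) E β) = σ (algebraMap (𝓞 E) E α)
    rw [← map_mul, e]

theorem SInt_int (f : ℕ) (α : 𝓞 E) : algebraMap (𝓞 E) E α ∈ SInt E f :=
  ⟨α, 1, isCoprime_one_left, by rw [map_one, mul_one]⟩

theorem Gen3.fixed {σ : E ≃ₐ[k] E} (h : Gen3 k E σ) (x : E) (hx : σ x = x) :
    ∃ a : k, algebraMap k E a = x := by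
  have := h.gal
  have h1 : x ∈ (⊥ : IntermediateField k E) := by
    rw [IsGalois.mem_bot_iff_fixed]
    intro τ
    rcases h.all τ with rfl | rfl | rfl
    · rfl
    · exact hx
    · show σ (σ x) = x
      rw [hx, hx]
  exact IntermediateField.mem_bot.1 h1

open Classical in
theorem Gen3.univ {σ : E ≃ₐ[k] E} (h : Gen3 k E σ) :
    (Finset.univ : Finset (E ≃ₐ[k] E)) = {1, σ, σ * σ} := by
  ext τ
  simp only [Finset.mem_univ, Finset.mem_insert, Finset.mem_singleton, true_iff]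
  exact h.all τ

theorem Gen3.ne2 {σ : E ≃ₐ[k] E} (h : Gen3 k E σ) : σ * σ ≠ 1 := by
  intro he
  apply h.ne
  ext x
  have h1 := h.s3 x
  have h2 : σ (σ x) = x := congrArg (fun g : E ≃ₐ[k] E => g x) he
  rw [h2] at h1
  exact h1

theorem Gen3.ne3 {σ : E ≃ₐ[k] E} (h : Gen3 k E σ) : σ ≠ σ * σ := by
  intro he
  apply h.ne
  have := congrArg (fun g => σ⁻¹ * g) he
  simp only [inv_mul_cancel, inv_mul_cancel_left] at this
  exact this.symm

theorem Gen3.sum {σ : E ≃ₐ[k] E} (h : Gen3 k E σ) (x : E) :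
    algebraMap k E (Algebra.trace k E x) = x + σ x + σ (σ x) := by
  classical
  have := h.gal
  rw [trace_eq_sum_automorphisms, h.univ, Finset.sum_insert, Finset.sum_insert,
    Finset.sum_singleton]
  · show x + (σ x + σ (σ x)) = _
    ring
  · simp only [Finset.mem_singleton]; exact h.ne3
  · simp only [Finset.mem_insert, Finset.mem_singleton, not_or]
    exact ⟨fun e => h.ne e.symm, fun e => h.ne2 e.symm⟩

theorem Gen3.prod {σ : E ≃ₐ[k] E} (h : Gen3 k E σ) (x : E) :
    algebraMap k E (Algebra.norm k x) = x * σ x * σ (σ x) := by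
  classical
  have := h.gal
  rw [Algebra.norm_eq_prod_automorphisms, h.univ, Finset.prod_insert, Finset.prod_insert,
    Finset.prod_singleton]
  · show x * (σ x * σ (σ x)) = _
    ring
  · simp only [Finset.mem_singleton]; exact h.ne3
  · simp only [Finset.mem_insert, Finset.mem_singleton, not_or]
    exact ⟨fun e => h.ne e.symm, fun e => h.ne2 e.symm⟩

/-- existence of the normal lattice -/
theorem Gen3.exists_NB {σ : E ≃ₐ[k] E} (h : Gen3 k E σ) (f : ℕ) (hf : 2 ≤ f) :
    ∃ (θ : E) (c : ℕ), NB ((σ : E ≃+* E) : E →+* E) (SInt E f) (f : E) θ c := by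
  classical
  have := h.gal
  -- a normal basis, integral
  obtain ⟨θ0, hθ0⟩ : ∃ θ : E, ∀ a0 a1 a2 : k, algebraMap k E a0 * θ + algebraMap k E a1 * σ θ +
      algebraMap k E a2 * σ (σ θ) = 0 → a0 = 0 ∧ a1 = 0 ∧ a2 = 0 := by
    let b := IsGalois.normalBasis k E
    refine ⟨b 1, ?_⟩
    intro a0 a1 a2 h0
    have hli := b.linearIndependent
    rw [Fintype.linearIndependent_iff] at hli
    have hb : ∀ e : E ≃ₐ[k] E, b e = e (b 1) := IsGalois.normalBasis_apply
    have := hli (fun e => if e = 1 then a0 else if e = σ then a1 else a2) (by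
      rw [h.univ, Finset.sum_insert, Finset.sum_insert, Finset.sum_singleton]
      · rw [if_pos rfl, if_neg h.ne, if_pos rfl, if_neg h.ne2, if_neg h.ne3.symm, hb σ,
          hb (σ * σ), Algebra.smul_def, Algebra.smul_def, Algebra.smul_def]
        rw [← h0]
        show _ + (_ + _ * σ (σ (b 1))) = _
        ring
      · simp only [Finset.mem_singleton]; exact h.ne3
      · simp only [Finset.mem_insert, Finset.mem_singleton, not_or]
        exact ⟨fun e => h.ne e.symm, fun e => h.ne2 e.symm⟩)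
    refine ⟨?_, ?_, ?_⟩
    · simpa using this 1
    · simpa [h.ne] using this σ
    · simpa [h.ne2, h.ne3.symm] using this (σ * σ)
  obtain ⟨c0, hc0⟩ := den f θ0
  set θ : E := (f : E) ^ c0 * θ0 with hθdef
  have hf0 : (f : E) ≠ 0 := by exact_mod_cast (by omega : f ≠ 0)
  have hsf : σ (f : E) = (f : E) := map_natCast σ f
  have hθ : ∀ a0 a1 a2 : k, algebraMap k E a0 * θ + algebraMap k E a1 * σ θ +
      algebraMap k E a2 * σ (σ θ) = 0 → a0 = 0 ∧ a1 = 0 ∧ a2 = 0 := by
    intro a0 a1 a2 h0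
    apply hθ0
    rw [hθdef, map_mul, map_pow, hsf, map_mul, map_pow, hsf] at h0
    have : (f : E) ^ c0 * (algebraMap k E a0 * θ0 + algebraMap k E a1 * σ θ0 +
      algebraMap k E a2 * σ (σ θ0)) = 0 := by rw [← h0]; ring
    exact (mul_eq_zero.1 this).resolve_left (pow_ne_zero _ hf0)
  -- basis
  let v : Fin 3 → E := ![θ, σ θ, σ (σ θ)]
  have hv : LinearIndependent k v := by
    rw [Fintype.linearIndependent_iff]
    intro g hg
    rw [Fin.sum_univ_three] at hg
    simp only [Algebra.smul_def] at hg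
    obtain ⟨h0, h1, h2⟩ := hθ _ _ _ hg
    intro i
    fin_cases i
    · exact h0
    · exact h1
    · exact h2
  let b : Module.Basis (Fin 3) k E := basisOfLinearIndependentOfCardEqFinrank hv (by
    rw [h.three]; rfl)
  have hbv : ∀ i, b i = v i := fun i => by
    simp [b]
  -- the dual basis
  let B := Algebra.traceForm k E
  have hB : B.Nondegenerate := traceForm_nondegenerate k E
  let d := B.dualBasis hB b
  have hd : ∀ x i, b.repr x i = Algebra.trace k E (x * d i) := by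
    intro x i
    have h1 : x = ∑ j, b.repr x j • b j := (b.sum_repr x).symm
    have h2 : ∀ j, Algebra.trace k E (b j * d i) = if j = i then 1 else 0 := by
      intro j
      have := LinearMap.BilinForm.apply_dualBasis_left hB b i j
      rw [show Algebra.trace k E (b j * d i) = B (d i) (b j) by
        rw [mul_comm]; rfl]
      rw [this]
    conv_rhs => rw [h1, Finset.sum_mul, map_sum]
    rw [Finset.sum_eq_single i]
    · rw [smul_mul_assoc, map_smul, h2, if_pos rfl, smul_eq_mul, mul_one]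
    · intro j _ hj
      rw [smul_mul_assoc, map_smul, h2, if_neg hj, smul_zero]
    · intro h; exact absurd (Finset.mem_univ _) h
  -- denominators
  choose cc hcc using fun i => den f (d i)
  set c := cc 0 + cc 1 + cc 2 with hc
  have hdc : ∀ i, (f : E) ^ c * d i ∈ SInt E f := by
    intro i
    refine den_mono f (d i) (cc i) c ?_ (hcc i)
    fin_cases i
    · show cc 0 ≤ c
      omega
    · show cc 1 ≤ c
      omega
    · show cc 2 ≤ c
      omega
  refine ⟨θ, c, ?_⟩
  refine { s3 := h.s3, sB := fun x hx => SInt_map σ f x hx, fB := natCast_mem _ f, f0 := hf0, sf := hsf, unit := ?_, θB := hc0, gen := ?_, ind := ?_, three := ?_ }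
  · rintro x ⟨α, β, hβ, e⟩
    have hγ : IsCoprime (β + (f : 𝓞 E) * α) (f : 𝓞 E) := hβ.add_mul_left_left α
    have hγ0 : (β + (f : 𝓞 E) * α) ≠ 0 := coprime_ne_zero hf hγ
    have e2 : (1 + (f : E) * x) * algebraMap (𝓞 E) E β = algebraMap (𝓞 E) E (β + (f : 𝓞 E) * α) := by
      rw [map_add, map_mul, map_natCast, ← e]; ring
    have hγ0' : algebraMap (𝓞 E) E (β + (f : 𝓞 E) * α) ≠ 0 := by
      rwa [Ne, RingOfIntegers.coe_eq_zero_iff]
    have hx0 : 1 + (f : E) * x ≠ 0 := by
      intro h0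
      rw [h0, zero_mul] at e2
      exact hγ0' e2.symm
    refine ⟨hx0, β, β + (f : 𝓞 E) * α, hγ, ?_⟩
    rw [← e2]
    field_simp
  · intro x hx
    have hcoord : ∀ i, (f : E) ^ c * algebraMap k E (b.repr x i) ∈ SInt E f := by
      intro i
      rw [hd, h.sum]
      have hy : x * ((f : E) ^ c * d i) ∈ SInt E f := (SInt E f).mul_mem hx (hdc i)
      have e : (f : E) ^ c * (x * d i + σ (x * d i) + σ (σ (x * d i))) =
          x * ((f : E) ^ c * d i) + σ (x * ((f : E) ^ c * d i)) +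
            σ (σ (x * ((f : E) ^ c * d i))) := by
        simp only [map_mul, map_pow, hsf]
        ring
      rw [e]
      exact (SInt E f).add_mem ((SInt E f).add_mem hy (SInt_map σ f _ hy))
        (SInt_map σ f _ (SInt_map σ f _ hy))
    have hfix : ∀ i, σ ((f : E) ^ c * algebraMap k E (b.repr x i)) =
        (f : E) ^ c * algebraMap k E (b.repr x i) := by
      intro i
      rw [map_mul, map_pow, hsf, σ.commutes]
    refine ⟨_, _, _, ⟨hcoord 0, hfix 0⟩, ⟨hcoord 1, hfix 1⟩, ⟨hcoord 2, hfix 2⟩, ?_⟩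
    have h1 : x = ∑ j, b.repr x j • b j := (b.sum_repr x).symm
    rw [Fin.sum_univ_three, hbv, hbv, hbv, Algebra.smul_def, Algebra.smul_def,
      Algebra.smul_def] at h1
    have h2 : x = algebraMap k E (b.repr x 0) * θ + algebraMap k E (b.repr x 1) * σ θ +
      algebraMap k E (b.repr x 2) * σ (σ θ) := h1
    conv_lhs => rw [h2]
    show _ = _ * θ + _ * σ θ + _ * σ (σ θ)
    ring
  · intro a0 a1 a2 h0 h1 h2 hsum
    obtain ⟨b0, rfl⟩ := h.fixed a0 h0
    obtain ⟨b1, rfl⟩ := h.fixed a1 h1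
    obtain ⟨b2, rfl⟩ := h.fixed a2 h2
    obtain ⟨e0, e1, e2⟩ := hθ _ _ _ hsum
    rw [e0, e1, e2, map_zero]
    exact ⟨rfl, rfl, rfl⟩
  · by_cases h3 : 3 ∣ f
    · obtain ⟨m, hm⟩ := h3
      refine ⟨2, (m : E), natCast_mem _ m, ?_⟩
      have : (f : E) = 3 * (m : E) := by rw [hm]; push_cast; ring
      rw [this]; ring
    · have hcop : Nat.Coprime 3 f := (Nat.Prime.coprime_iff_not_dvd (by norm_num)).2 h3
      refine ⟨1, (3 : E)⁻¹, ⟨1, (3 : ℕ), natCast_coprime hcop, ?_⟩, ?_⟩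
      · rw [map_natCast, map_one]
        push_cast
        norm_num
      · field_simp

/-- Hilbert 90 -/
theorem Gen3.h90 {k E : Type} [Field k] [NumberField k] [Field E] [NumberField E] [Algebra k E]
    {σ : E ≃ₐ[k] E} (h : Gen3 k E σ) (x : E) (hx : x * σ x * σ (σ x) = 1) :
    ∃ z : Eˣ, σ (z : E) = x * z := by
  have := h.gal
  have hcard : Nat.card (E ≃ₐ[k] E) = 3 := by
    rw [IsGalois.card_aut_eq_finrank, h.three]
  have hp : Fact (Nat.Prime 3) := ⟨by norm_num⟩
  have hcyc : IsCyclic (E ≃ₐ[k] E) := isCyclic_of_prime_card hcard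
  have hg : ∀ τ, τ ∈ Subgroup.zpowers σ := by
    intro τ
    rcases h.all τ with rfl | rfl | rfl
    · exact Subgroup.one_mem _
    · exact Subgroup.mem_zpowers _
    · exact Subgroup.mul_mem _ (Subgroup.mem_zpowers _) (Subgroup.mem_zpowers _)
  have hN : Algebra.norm k x = 1 := by
    apply (algebraMap k E).injective
    rw [h.prod, hx, map_one]
  obtain ⟨y, hy⟩ := groupCohomology.exists_div_of_norm_eq_one hg hN
  refine ⟨y⁻¹, ?_⟩
  have hy0 : (y : E) ≠ 0 := y.ne_zero
  have hsy0 : σ (y : E) ≠ 0 := by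
    rwa [Ne, map_eq_zero_iff σ σ.injective]
  rw [← hy]
  push_cast
  rw [map_inv₀]
  field_simp

/-- **the group `W`** -/
theorem Gen3.exists_W {k E : Type} [Field k] [NumberField k] [Field E] [NumberField E]
    [Algebra k E] {σ : E ≃ₐ[k] E} (h : Gen3 k E σ) (f : ℕ) (hf : 0 < f) :
    ∃ (W : Subgroup Eˣ) (N : ℕ), (∀ x ∈ W, (x : E) ∈ SInt E f) ∧
      (∀ x ∈ W, Units.map ((σ : E ≃+* E) : E →* E) x ∈ W) ∧
      (∀ x ∈ W, (x : E) * σ x * σ (σ (x : E)) = 1 → ∃ y ∈ W, σ (y : E) = x * y) ∧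
      (∀ x : Eˣ, ∀ b ∈ SInt E f, (x : E) - 1 = (f : E) ^ N * b → x ∈ W) := by
  rcases Nat.lt_or_ge f 2 with h1 | h2
  · have hf1 : f = 1 := by omega
    subst hf1
    refine ⟨⊤, 0, ?_, fun _ _ => trivial, ?_, fun _ _ _ _ => trivial⟩
    · intro x _
      obtain ⟨c, hc⟩ := den 1 (x : E)
      simpa using hc
    · intro x _ hx
      obtain ⟨z, hz⟩ := h.h90 x hx
      exact ⟨z, trivial, hz⟩
  · obtain ⟨θ, c, hNB⟩ := h.exists_NB f h2
    refine ⟨hNB.W, 2 * c + 1, fun x hx => (hNB.W_B x hx).1, fun x hx => hNB.W_map x hx, ?_,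
      fun x b hb hx => hNB.W_of x b hb hx⟩
    intro x hx hN
    obtain ⟨z, hz⟩ := h.h90 x hN
    obtain ⟨a, y, ha, hy, hzay⟩ := hNB.H1 z x hx (by
      show σ (z : E) = _
      rw [hz, mul_comm])
    refine ⟨y, hy, ?_⟩
    have ha' : σ (a : E) = a := ha
    rw [hzay] at hz
    push_cast at hz
    rw [map_mul, ha'] at hz
    apply mul_left_cancel₀ a.ne_zero
    rw [hz]
    ring

end CF3
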