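import Pool.Agent.Lib.CF3.Defs

/-!
# CF3.Princ: fractional ideals prime to f and principal ideals
-/

namespace CF3

open NumberField nonZeroDivisors

variable {k E : Type*} [Field k] [Field E] [NumberField E] [Algebra k E]

theorem natCast_not_unit {f : ℕ} (hf : 2 ≤ f) : ¬ IsUnit (f : 𝓞 E) := by
  intro h
  have h1 := Int.isUnit_iff.1 (IsUnit.map (Algebra.norm ℤ) h)
  have h2 : Algebra.norm ℤ (f : 𝓞 E) = (f : ℤ) ^ (Module.finrank ℤ (𝓞 E)) := by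
    have := Algebra.norm_algebraMap (S := 𝓞 E) (f : ℤ)
    simpa using this
  have hr : Module.finrank ℤ (𝓞 E) ≠ 0 := by
    rw [RingOfIntegers.rank]
    exact (Module.finrank_pos (R := ℚ) (M := E)).ne'
  rw [h2] at h1
  have h3 : (1 : ℤ) < (f : ℤ) ^ (Module.finrank ℤ (𝓞 E)) := one_lt_pow₀ (by exact_mod_cast hf) hr
  rcases h1 with h1 | h1
  · omega
  · omega

theorem coprime_ne_zero {f : ℕ} (hf : 2 ≤ f) {β : 𝓞 E} (h : IsCoprime β (f : 𝓞 E)) : β ≠ 0 := by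
  rintro rfl
  exact natCast_not_unit hf (isCoprime_zero_left.1 h)

theorem cop_span {f : ℕ} {β : 𝓞 E} : Cop f (Ideal.span {β}) ↔ IsCoprime β (f : 𝓞 E) := by
  unfold Cop
  rw [Ideal.isCoprime_span_singleton_iff]

theorem cop_ne_bot {f : ℕ} (hf : 2 ≤ f) {I : Ideal (𝓞 E)} (h : Cop f I) : I ≠ ⊥ := by
  rintro rfl
  unfold Cop at h
  rw [← Ideal.span_singleton_eq_bot.2 (rfl : (0 : 𝓞 E) = 0)] at h
  exact coprime_ne_zero hf (Ideal.isCoprime_span_singleton_iff _ _ |>.1 h) rfl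

theorem sO_natCast (σ : E ≃ₐ[k] E) (f : ℕ) : sO σ (f : 𝓞 E) = (f : 𝓞 E) := map_natCast _ f

theorem cop_map {f : ℕ} (σ : E ≃ₐ[k] E) {I : Ideal (𝓞 E)} (h : Cop f I) :
    Cop f (I.map (sO σ)) := by
  unfold Cop at *
  rw [Ideal.isCoprime_iff_sup_eq] at *
  have : (Ideal.span {(f : 𝓞 E)} : Ideal (𝓞 E)) = (Ideal.span {(f : 𝓞 E)}).map (sO σ) := by
    rw [Ideal.map_span, Set.image_singleton, sO_natCast]
  rw [this, ← Ideal.map_sup, h, Ideal.map_top]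

theorem map_ne_bot (σ : E ≃ₐ[k] E) {I : Ideal (𝓞 E)} (h : I ≠ ⊥) : I.map (sO σ) ≠ ⊥ := by
  intro h0
  exact h ((Ideal.map_eq_bot_iff_of_injective (sO σ).injective).1 h0)

/-- the action of an automorphism on fractional ideals prime to f -/
noncomputable def sD (σ : E ≃ₐ[k] E) (f : ℕ) : DS E f →* DS E f :=
  ((Units.map (sF σ : FractionalIdeal (𝓞 E)⁰ E →* FractionalIdeal (𝓞 E)⁰ E)).comp
    (DS E f).subtype).codRestrict (DS E f) (by
      rintro ⟨d, I, J, h1, h2, h3, h4, h5⟩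
      refine ⟨I.map (sO σ), J.map (sO σ), map_ne_bot σ h1, map_ne_bot σ h2, cop_map σ h3,
        cop_map σ h4, ?_⟩
      have h6 := congrArg (sF σ) h5
      rw [map_mul, sF_coe, sF_coe] at h6
      exact h6)

theorem sD_coe (σ : E ≃ₐ[k] E) (f : ℕ) (d : DS E f) :
    (((sD σ f d : DS E f) : (FractionalIdeal (𝓞 E)⁰ E)ˣ) : FractionalIdeal (𝓞 E)⁰ E) =
      sF σ ((d : (FractionalIdeal (𝓞 E)⁰ E)ˣ) : FractionalIdeal (𝓞 E)⁰ E) := rfl

theorem map_map_map (σ : E ≃ₐ[k] E) (hσ : ∀ x, σ (σ (σ x)) = x) (I : Ideal (𝓞 E)) :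
    ((I.map (sO σ)).map (sO σ)).map (sO σ) = I := by
  have h : ∀ x : 𝓞 E, sO σ (sO σ (sO σ x)) = x := by
    intro x
    apply RingOfIntegers.coe_injective
    exact hσ _
  ext x
  constructor
  · intro hx
    obtain ⟨y, hy, rfl⟩ := (Ideal.mem_map_of_equiv (sO σ) _).1 hx
    obtain ⟨z, hz, rfl⟩ := (Ideal.mem_map_of_equiv (sO σ) _).1 hy
    obtain ⟨w, hw, rfl⟩ := (Ideal.mem_map_of_equiv (sO σ) _).1 hz
    rwa [h]
  · intro hx
    rw [← h x]
    exact Ideal.mem_map_of_mem _ (Ideal.mem_map_of_mem _ (Ideal.mem_map_of_mem _ hx))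

theorem sD_sD_sD (σ : E ≃ₐ[k] E) (hσ : ∀ x, σ (σ (σ x)) = x) (f : ℕ) (d : DS E f) :
    sD σ f (sD σ f (sD σ f d)) = d := by
  apply Subtype.ext
  apply Units.ext
  rw [sD_coe, sD_coe, sD_coe]
  obtain ⟨I, J, h1, h2, h3, h4, h5⟩ := d.2
  have hJ : (J : FractionalIdeal (𝓞 E)⁰ E) ≠ 0 := by
    rwa [Ne, FractionalIdeal.coeIdeal_eq_zero]
  apply mul_right_cancel₀ hJ
  rw [h5]
  have := congrArg (fun x => sF σ (sF σ (sF σ x))) h5
  simp only [map_mul, sF_coe] at this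
  rwa [map_map_map σ hσ, map_map_map σ hσ] at this

theorem SInt_repr {f : ℕ} (hf : 0 < f) (x : Eˣ) (hx : (x : E) ∈ SInt E f)
    (hx' : ((x⁻¹ : Eˣ) : E) ∈ SInt E f) : ∃ α β : 𝓞 E, α ≠ 0 ∧ β ≠ 0 ∧ IsCoprime α (f : 𝓞 E) ∧
      IsCoprime β (f : 𝓞 E) ∧ (x : E) * algebraMap (𝓞 E) E β = algebraMap (𝓞 E) E α := by
  rcases Nat.lt_or_ge f 2 with h1 | h2
  · have hf1 : f = 1 := by omega
    subst hf1
    obtain ⟨α, β, hβ, e⟩ := IsFractionRing.div_surjective (A := 𝓞 E) (x : E)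
    have hβ0 : β ≠ 0 := nonZeroDivisors.ne_zero hβ
    have hβ0' : algebraMap (𝓞 E) E β ≠ 0 := by
      rwa [Ne, RingOfIntegers.coe_eq_zero_iff]
    have e' : (x : E) * algebraMap (𝓞 E) E β = algebraMap (𝓞 E) E α := by
      rw [← e]; field_simp
    refine ⟨α, β, ?_, hβ0, by rw [Nat.cast_one]; exact isCoprime_one_right,
      by rw [Nat.cast_one]; exact isCoprime_one_right, e'⟩
    rintro rfl
    rw [map_zero] at e'
    exact (mul_ne_zero x.ne_zero hβ0') e'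
  · obtain ⟨α, β, h, e⟩ := hx
    obtain ⟨α', β', h', e'⟩ := hx'
    have hprod : α * α' = β * β' := by
      apply RingOfIntegers.coe_injective
      show algebraMap (𝓞 E) E (α * α') = algebraMap (𝓞 E) E (β * β')
      rw [map_mul, map_mul, ← e, ← e', Units.val_inv_eq_inv_val]
      have := x.ne_zero
      field_simp
    have hα : IsCoprime α (f : 𝓞 E) := by
      have : IsCoprime (α * α') (f : 𝓞 E) := by rw [hprod]; exact h.mul_left h'
      exact this.of_mul_left_left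
    exact ⟨α, β, coprime_ne_zero h2 hα, coprime_ne_zero h2 h, hα, h, e⟩

theorem toPrincipal_mem {f : ℕ} (hf : 0 < f) (x : Eˣ) (hx : (x : E) ∈ SInt E f)
    (hx' : ((x⁻¹ : Eˣ) : E) ∈ SInt E f) : toPrincipalIdeal (𝓞 E) E x ∈ DS E f := by
  obtain ⟨α, β, hα0, hβ0, hα, hβ, e⟩ := SInt_repr hf x hx hx'
  refine ⟨Ideal.span {α}, Ideal.span {β}, ?_, ?_, cop_span.2 hα, cop_span.2 hβ, ?_⟩
  · rwa [Ne, Ideal.span_singleton_eq_bot]
  · rwa [Ne, Ideal.span_singleton_eq_bot]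
  · rw [coe_toPrincipalIdeal, FractionalIdeal.coeIdeal_span_singleton,
      FractionalIdeal.coeIdeal_span_singleton, FractionalIdeal.spanSingleton_mul_spanSingleton, e]

theorem exists_coprime_mem {f : ℕ} {I : Ideal (𝓞 E)} (h : Cop f I) :
    ∃ β ∈ I, IsCoprime β (f : 𝓞 E) := by
  unfold Cop at h
  obtain ⟨i, hi, j, hj, hij⟩ := Ideal.isCoprime_iff_exists.1 h
  obtain ⟨c, rfl⟩ := Ideal.mem_span_singleton.1 hj
  exact ⟨i, hi, 1, c, by rw [one_mul, mul_comm c]; exact hij⟩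

theorem mem_of_toPrincipal {f : ℕ} (x : Eˣ) (hx : toPrincipalIdeal (𝓞 E) E x ∈ DS E f) :
    (x : E) ∈ SInt E f := by
  obtain ⟨I, J, h1, h2, h3, h4, h5⟩ := hx
  rw [coe_toPrincipalIdeal] at h5
  obtain ⟨β, hβ, hc⟩ := exists_coprime_mem h4
  have hm : (x : E) * algebraMap (𝓞 E) E β ∈ (I : FractionalIdeal (𝓞 E)⁰ E) := by
    rw [← h5]
    exact FractionalIdeal.mul_mem_mul (FractionalIdeal.mem_spanSingleton_self _ _)
      (FractionalIdeal.mem_coeIdeal_of_mem _ hβ)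
  obtain ⟨α, _, hα⟩ := (FractionalIdeal.mem_coeIdeal _).1 hm
  exact ⟨α, β, hc, hα.symm⟩

end CF3
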