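import Pool.Agent.Lib.CF3.NBex
import Pool.Agent.Lib.CF3.Fin
import Pool.Agent.Lib.CF3.AbsH

/-!
# CF3.Units: the units in W
-/

namespace CF3

open NumberField nonZeroDivisors

section one

variable {E : Type*} [Field E] [NumberField E]

/-- `(x) = 1` means that `x` is a unit of the ring of integers. -/
theorem exists_unit_of {x : Eˣ} (hx : toPrincipalIdeal (𝓞 E) E x = 1) :
    ∃ u : (𝓞 E)ˣ, algebraMap (𝓞 E) E (u : 𝓞 E) = x := by
  have key : ∀ y : Eˣ, toPrincipalIdeal (𝓞 E) E y = 1 → ∃ a : 𝓞 E, algebraMap (𝓞 E) E a = y := by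
    intro y hy
    have h1 : FractionalIdeal.spanSingleton (𝓞 E)⁰ (y : E) = 1 := by
      rw [← coe_toPrincipalIdeal, hy]; rfl
    have h2 : (y : E) ∈ (1 : FractionalIdeal (𝓞 E)⁰ E) := by
      rw [← h1]; exact FractionalIdeal.mem_spanSingleton_self _ _
    obtain ⟨a, ha⟩ := (FractionalIdeal.mem_one_iff _).1 h2
    exact ⟨a, ha⟩
  obtain ⟨a, ha⟩ := key x hx
  obtain ⟨b, hb⟩ := key x⁻¹ (by rw [map_inv, hx, inv_one])
  have hab : a * b = 1 := by
    apply RingOfIntegers.coe_injective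
    show algebraMap (𝓞 E) E (a * b) = algebraMap (𝓞 E) E 1
    rw [map_mul, ha, hb, map_one, Units.val_inv_eq_inv_val, mul_inv_cancel₀ x.ne_zero]
  exact ⟨⟨a, b, hab, by rw [mul_comm]; exact hab⟩, ha⟩

theorem toPrincipal_unit (u : (𝓞 E)ˣ) :
    toPrincipalIdeal (𝓞 E) E (Units.map (algebraMap (𝓞 E) E : 𝓞 E →* E) u) = 1 := by
  apply Units.ext
  rw [coe_toPrincipalIdeal, Units.val_one]
  have h1 : FractionalIdeal.spanSingleton (𝓞 E)⁰ (algebraMap (𝓞 E) E (u : 𝓞 E)) =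
      ((Ideal.span {(u : 𝓞 E)} : Ideal (𝓞 E)) : FractionalIdeal (𝓞 E)⁰ E) :=
    (FractionalIdeal.coeIdeal_span_singleton _).symm
  rw [Ideal.span_singleton_eq_top.2 u.isUnit, FractionalIdeal.coeIdeal_top] at h1
  exact h1

/-- a unit of infinite order -/
theorem exists_infinite_unit (h : 3 ≤ Module.finrank ℚ E) : ∃ u : (𝓞 E)ˣ, ¬ IsOfFinOrder u := by
  by_contra hcon
  push Not at hcon
  have h1 := InfinitePlace.card_add_two_mul_card_eq_rank (K := E)
  have h2 := InfinitePlace.card_eq_nrRealPlaces_add_nrComplexPlaces (K := E)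
  have h3 : 0 < Units.rank E := by
    unfold Units.rank
    omega
  have h4 : Module.finrank ℤ (Additive (𝓞 E)ˣ) = Units.rank E := Units.finrank_eq E
  have h5 : Module.finrank ℤ (Additive (𝓞 E)ˣ) = 0 := by
    rw [Module.finrank_eq_zero_iff_isTorsion]
    intro x
    obtain ⟨n, hn, hn'⟩ := isOfFinOrder_iff_pow_eq_one.1 (hcon x.toMul)
    refine ⟨⟨(n : ℤ), mem_nonZeroDivisors_of_ne_zero (by exact_mod_cast hn.ne')⟩, ?_⟩
    have : ((n : ℤ) : ℤ) • x = 0 := by
      rw [natCast_zsmul]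
      exact hn'
    exact this
  omega

theorem unit_pow_mem (f : ℕ) (hf : 0 < f) (W : Subgroup Eˣ) (N : ℕ)
    (hN : ∀ x : Eˣ, ∀ b ∈ SInt E f, (x : E) - 1 = (f : E) ^ N * b → x ∈ W) :
    ∃ m : ℕ, 0 < m ∧ ∀ u : (𝓞 E)ˣ,
      Units.map (algebraMap (𝓞 E) E : 𝓞 E →* E) (u ^ m) ∈ W := by
  classical
  let I : Ideal (𝓞 E) := Ideal.span {(f : 𝓞 E) ^ N}
  have hI : I ≠ ⊥ := by
    intro h
    have := Ideal.span_singleton_eq_bot.1 h
    have h2 : (f : 𝓞 E) ≠ 0 := by
      exact_mod_cast (by omega : f ≠ 0)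
    exact pow_ne_zero N h2 this
  have hfinI : Finite (𝓞 E ⧸ I) := Ideal.finiteQuotientOfFreeOfNeBot I hI
  have hfinU : Finite (𝓞 E ⧸ I)ˣ := inferInstance
  refine ⟨Nat.card (𝓞 E ⧸ I)ˣ, Nat.card_pos, ?_⟩
  intro u
  have h1 : (Units.map (Ideal.Quotient.mk I : 𝓞 E →* 𝓞 E ⧸ I) u) ^ (Nat.card (𝓞 E ⧸ I)ˣ) = 1 :=
    pow_card_eq_one'
  rw [← map_pow] at h1
  have h2 : Ideal.Quotient.mk I ((u ^ (Nat.card (𝓞 E ⧸ I)ˣ) : (𝓞 E)ˣ) : 𝓞 E) =
      Ideal.Quotient.mk I 1 := by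
    rw [map_one]
    exact congrArg Units.val h1
  have h3 := Ideal.Quotient.eq.1 h2
  obtain ⟨γ, hγ⟩ := Ideal.mem_span_singleton.1 h3
  apply hN _ (algebraMap (𝓞 E) E γ) (SInt_int f γ)
  show algebraMap (𝓞 E) E ((u ^ (Nat.card (𝓞 E ⧸ I)ˣ) : (𝓞 E)ˣ) : 𝓞 E) - 1 = _
  rw [← map_one (algebraMap (𝓞 E) E), ← map_sub, hγ, map_mul, map_pow, map_natCast]

end one

section two

variable {k E : Type*} [Field k] [NumberField k] [Field E] [NumberField E] [Algebra k E]

/-- the action of `σ` on `W` -/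
noncomputable def sW (σ : E ≃ₐ[k] E) (W : Subgroup Eˣ)
    (hs : ∀ x ∈ W, Units.map ((σ : E ≃+* E) : E →* E) x ∈ W) : W →* W :=
  ((Units.map ((σ : E ≃+* E) : E →* E)).comp W.subtype).codRestrict W (fun x => hs x.1 x.2)

theorem sW_coe (σ : E ≃ₐ[k] E) (W : Subgroup Eˣ)
    (hs : ∀ x ∈ W, Units.map ((σ : E ≃+* E) : E →* E) x ∈ W) (x : W) :
    ((sW σ W hs x : Eˣ) : E) = σ ((x : Eˣ) : E) := rfl

theorem Gen3.units_ineq {σ : E ≃ₐ[k] E} (h : Gen3 k E σ) (hk : Finite (𝓞 k)ˣ) (f : ℕ)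
    (hf : 0 < f) (W : Subgroup Eˣ) (N : ℕ) (hW : ∀ x ∈ W, (x : E) ∈ SInt E f)
    (hs : ∀ x ∈ W, Units.map ((σ : E ≃+* E) : E →* E) x ∈ W)
    (hN : ∀ x : Eˣ, ∀ b ∈ SInt E f, (x : E) - 1 = (f : E) ^ N * b → x ∈ W) :
    ∃ Uf : Subgroup W, (∀ x, x ∈ Uf ↔ delta f hf W hW x = 1 ∧ sW σ W hs x = x) ∧ Finite Uf ∧
      Nat.card Uf < ((delta f hf W hW).ker.map (sW σ W hs / MonoidHom.id W)).relIndex
        (delta f hf W hW).ker := by
  classical
  set δ := delta f hf W hW with hδ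
  have hδ1 : ∀ x : W, δ x = 1 ↔ toPrincipalIdeal (𝓞 E) E (x : Eˣ) = 1 := by
    intro x
    rw [← delta_coe f hf W hW, ← hδ]
    constructor
    · intro h; rw [h]; rfl
    · intro h; exact Subtype.ext h
  let Uf : Subgroup W := δ.ker ⊓ (sW σ W hs).eqLocus (MonoidHom.id W)
  have hUf : ∀ x, x ∈ Uf ↔ x ∈ δ.ker ∧ sW σ W hs x = x := fun x => Iff.rfl
  -- injection of the kernel into the units
  have hinj : ∀ x : δ.ker, ∃ u : (𝓞 E)ˣ, algebraMap (𝓞 E) E (u : 𝓞 E) = ((x : W) : Eˣ) := by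
    intro x
    exact exists_unit_of ((hδ1 _).1 x.2)
  have hfix : Finite Uf := by
    have h1 : ∀ x : Uf, ∃ u : (𝓞 k)ˣ, algebraMap k E (algebraMap (𝓞 k) k (u : 𝓞 k)) =
        (((x : W) : Eˣ) : E) := by
      intro x
      have hx1 : ((x : W)) ∈ δ.ker := ((hUf _).1 x.2).1
      have hx2 : σ (((x : W) : Eˣ) : E) = (((x : W) : Eˣ) : E) := by
        have := ((hUf _).1 x.2).2
        rw [← sW_coe σ W hs, this]
      obtain ⟨u, hu⟩ := exists_unit_of ((hδ1 _).1 hx1)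
      obtain ⟨a, ha⟩ := h.fixed _ hx2
      have key : ∀ (y : E) (b : k) (v : 𝓞 E), algebraMap (𝓞 E) E v = y → algebraMap k E b = y →
          ∃ w : 𝓞 k, algebraMap (𝓞 k) k w = b := by
        intro y b v hv hb
        have h3 : IsIntegral ℤ b := by
          have h4 : IsIntegral ℤ (algebraMap k E b) := by
            rw [hb, ← hv]; exact RingOfIntegers.isIntegral_coe v
          exact (isIntegral_algebraMap_iff (algebraMap k E).injective).1 h4
        exact ⟨⟨b, h3⟩, rfl⟩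
      obtain ⟨w, hw⟩ := key _ a u hu ha
      obtain ⟨w', hw'⟩ := key (((x : W) : Eˣ)⁻¹ : E) a⁻¹ (u⁻¹ : (𝓞 E)ˣ) (by
        rw [← hu]
        apply eq_inv_of_mul_eq_one_left
        rw [← map_mul, Units.inv_mul, map_one]) (by rw [map_inv₀, ha])
      have ha0 : a ≠ 0 := by
        rintro rfl
        rw [map_zero] at ha
        exact ((x : W) : Eˣ).ne_zero ha.symm
      have hww : w * w' = 1 := by
        apply RingOfIntegers.coe_injective
        show algebraMap (𝓞 k) k (w * w') = algebraMap (𝓞 k) k 1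
        rw [map_mul, hw, hw', map_one, mul_inv_cancel₀ ha0]
      exact ⟨⟨w, w', hww, by rw [mul_comm]; exact hww⟩, by
        show algebraMap k E (algebraMap (𝓞 k) k w) = _
        rw [hw, ha]⟩
    choose g hg using h1
    refine Finite.of_injective g (fun x y hxy => ?_)
    apply Subtype.ext
    apply Subtype.ext
    apply Units.ext
    rw [← hg x, ← hg y, hxy]
  refine ⟨Uf, fun x => Iff.rfl, hfix, ?_⟩
  apply herbrand (sW σ W hs) _ δ.ker _ _ _ Uf hUf hfix
  · intro x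
    apply Subtype.ext
    apply Units.ext
    exact h.s3 _
  · -- finitely generated
    have h2 : Group.FG δ.ker ↔ AddGroup.FG (Additive δ.ker) := GroupFG.iff_add_fg
    rw [h2, ← Module.Finite.iff_addGroup_fg]
    choose g hg using hinj
    let φ : δ.ker →* (𝓞 E)ˣ :=
      { toFun := g
        map_one' := by
          apply Units.ext
          apply RingOfIntegers.coe_injective
          show algebraMap (𝓞 E) E _ = algebraMap (𝓞 E) E _
          rw [hg, Units.val_one, map_one]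
          rfl
        map_mul' := by
          intro x y
          apply Units.ext
          apply RingOfIntegers.coe_injective
          show algebraMap (𝓞 E) E _ = algebraMap (𝓞 E) E _
          rw [hg, Units.val_mul, map_mul, hg, hg]
          rfl }
    let φ' : Additive δ.ker →ₗ[ℤ] Additive (𝓞 E)ˣ := (MonoidHom.toAdditive φ).toIntLinearMap
    refine Module.Finite.of_injective φ' (fun a b hab => ?_)
    have hab' : g a.toMul = g b.toMul := hab
    apply Subtype.ext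
    apply Subtype.ext
    apply Units.ext
    show ((((a.toMul : δ.ker) : W) : Eˣ) : E) = ((((b.toMul : δ.ker) : W) : Eˣ) : E)
    rw [← hg, ← hg, hab']
  · -- infinite
    have h3 : 3 ≤ Module.finrank ℚ E := by
      rw [← Module.finrank_mul_finrank ℚ k E, h.three]
      have : 0 < Module.finrank ℚ k := Module.finrank_pos
      omega
    obtain ⟨u, hu⟩ := exists_infinite_unit h3
    obtain ⟨m, hm, hmW⟩ := unit_pow_mem f hf W N hN
    let x : ℕ → δ.ker := fun n => ⟨⟨_, hmW (u ^ n)⟩, by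
      rw [MonoidHom.mem_ker, hδ1]
      exact toPrincipal_unit _⟩
    refine Infinite.of_injective x (fun a b hab => ?_)
    have h4 : algebraMap (𝓞 E) E (((u ^ a) ^ m : (𝓞 E)ˣ) : 𝓞 E) =
        algebraMap (𝓞 E) E (((u ^ b) ^ m : (𝓞 E)ˣ) : 𝓞 E) :=
      congrArg (fun z : δ.ker => (((z : W) : Eˣ) : E)) hab
    have h5 : (u ^ a) ^ m = (u ^ b) ^ m := Units.ext (RingOfIntegers.coe_injective h4)
    rw [← pow_mul, ← pow_mul] at h5
    have h6 := (injective_pow_iff_not_isOfFinOrder.2 hu) h5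
    exact Nat.eq_of_mul_eq_mul_right hm h6
  · intro x hx
    rw [MonoidHom.mem_ker, hδ1] at hx ⊢
    obtain ⟨u, hu⟩ := exists_unit_of hx
    have : ((sW σ W hs x : W) : Eˣ) = Units.map (algebraMap (𝓞 E) E : 𝓞 E →* E)
        (Units.map ((sO σ : 𝓞 E ≃+* 𝓞 E) : 𝓞 E →* 𝓞 E) u) := by
      apply Units.ext
      show σ (((x : W) : Eˣ) : E) = σ (algebraMap (𝓞 E) E (u : 𝓞 E))
      rw [hu]
    rw [this]
    exact toPrincipal_unit _

end two

end CF3
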